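import Pool.Agent.H6.IvA.Defs

/-!
JOB AV-1. Polynomials whose curve avoids the circular points.
* `IsoFree.of_dvd`: total degree is additive on products (`MvPolynomial.totalDegree_mul_of_isDomain`), `natDegree` of `G(t,0)`, `G(0,t)` is additive, and each is
  at most `totalDegree` (a monomial `ξ^i η^j` has degree `i + j`), so equality for the product implies equality for the factors.
* `IsoFree.val_le`: if `val ξ > max 1 (val η)`, the term `c ξ ^ d` (`d = totalDegree G ≥ 1`) is strictly bigger than all the others, so `G(ξ, η) ≠ 0`.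
* `exists_irr_factor`: `F` is a unit (non-zero constant, impossible) times a product of irreducibles (`WfDvdMonoid`/`UniqueFactorizationMonoid.induction_on_prime`), and `ev` is a ring homomorphism into a field.
* `isoFree_of_real`: `F(ξ,η) = f((ξ+η)/2, (ξ-η)/(2i))`: `F(t,0) = f(t/2, -i t/2)`, `F(0,t) = f(t/2, i t/2)`; `totalDegree F ≤ totalDegree f`;
  the coefficient of `t^d` in `f(t, -i t)` is the conjugate of the one in `f(t, i t)` (f real).
-/

set_option autoImplicit false

namespace Pool.Agent.H6.IvA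

open Polynomial

lemma iso_natDegree_le (G : MvPolynomial (Fin 2) ℂ) (p q : ℂ[X]) (hp : p.natDegree ≤ 1)
    (hq : q.natDegree ≤ 1) : (MvPolynomial.aeval ![p, q] G).natDegree ≤ G.totalDegree := by
  have h := MvPolynomial.aeval_natDegree_le (m := G.totalDegree) (n := 1) G le_rfl ![p, q]
    (fun i => by fin_cases i <;> simpa)
  simpa using h

lemma iso_of_mul {F G H : MvPolynomial (Fin 2) ℂ} (hF : F = G * H) (h0 : F ≠ 0) (p q : ℂ[X])
    (hp : p.natDegree ≤ 1) (hq : q.natDegree ≤ 1)
    (h : (MvPolynomial.aeval ![p, q] F).natDegree = F.totalDegree) :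
    (MvPolynomial.aeval ![p, q] G).natDegree = G.totalDegree := by
  have hG : G ≠ 0 := by rintro rfl; simp at hF; exact h0 hF
  have hH : H ≠ 0 := by rintro rfl; simp at hF; exact h0 hF
  have h1 := MvPolynomial.totalDegree_mul_of_isDomain hG hH
  have h2 := iso_natDegree_le G p q hp hq
  have h3 := iso_natDegree_le H p q hp hq
  rw [← hF] at h1
  by_cases h4 : MvPolynomial.aeval ![p, q] F = 0
  · rw [h4, natDegree_zero] at h
    omega
  · rw [hF, map_mul] at h4 
    have h5 := natDegree_mul (left_ne_zero_of_mul h4) (right_ne_zero_of_mul h4)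
    rw [hF, map_mul, h5, ← hF] at h
    omega

theorem IsoFree.of_dvd {F G : MvPolynomial (Fin 2) ℂ} (hF : IsoFree F) (h : G ∣ F) :
    IsoFree G := by
  obtain ⟨H, hH⟩ := h
  refine ⟨?_, iso_of_mul hH hF.1 _ _ (by simp) (by simp) hF.2.1,
    iso_of_mul hH hF.1 _ _ (by simp) (by simp) hF.2.2⟩
  rintro rfl
  simp at hH
  exact hF.1 hH

/-- the coefficient of `t ^ n` in `G(t, 0)` -/
lemma iso_coeff (G : MvPolynomial (Fin 2) ℂ) (i : Fin 2) (n : ℕ) :
    (MvPolynomial.aeval (fun j => if j = i then (X : ℂ[X]) else 0) G).coeff n =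
      G.coeff (Finsupp.single i n) := by
  classical
  induction G using MvPolynomial.induction_on' with
  | monomial s c =>
    rw [MvPolynomial.aeval_monomial, MvPolynomial.coeff_monomial, Finsupp.prod_fintype _ _ (by simp)]
    by_cases h : ∀ j, j ≠ i → s j = 0
    · have hs : s = Finsupp.single i (s i) := by
        ext j
        by_cases hj : j = i
        · subst hj; simp
        · rw [h j hj, Finsupp.single_eq_of_ne hj]
      have h1 : (∏ j, (if j = i then (X : ℂ[X]) else 0) ^ s j) = X ^ s i := by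
        rw [Finset.prod_eq_single i]
        · simp
        · intro j _ hj
          simp [h j hj]
        · simp
      rw [h1]
      have h2 : (algebraMap ℂ ℂ[X]) c = C c := rfl
      rw [h2, coeff_C_mul_X_pow]
      by_cases h3 : n = s i
      · subst h3
        rw [if_pos rfl, if_pos hs]
      · rw [if_neg h3, if_neg]
        intro h4
        rw [h4] at h3
        simp at h3
    · push Not at h
      obtain ⟨j, hj, hj2⟩ := h
      rw [Finset.prod_eq_zero (Finset.mem_univ j), mul_zero, coeff_zero, if_neg]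
      · intro h4
        rw [h4] at hj2
        simp [Finsupp.single_eq_of_ne hj] at hj2
      · rw [if_neg hj, zero_pow hj2]
  | add p q hp hq => rw [map_add, coeff_add, MvPolynomial.coeff_add, hp, hq]

lemma iso_val_core {K : Type} [Field K] [Algebra ℂ K] {Γ : Type}
    [LinearOrderedCommGroupWithZero Γ] (val : Valuation K Γ)
    (hval : ∀ c : ℂ, c ≠ 0 → val (algebraMap ℂ K c) = 1)
    {G : MvPolynomial (Fin 2) ℂ} {i j : Fin 2} (hij : j ≠ i)
    (hc : G.coeff (Finsupp.single i G.totalDegree) ≠ 0) {x : Fin 2 → K}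
    (h1 : 1 < val (x i)) (h2 : val (x j) < val (x i)) :
    MvPolynomial.aeval x G ≠ 0 := by
  classical
  have huniv : (Finset.univ : Finset (Fin 2)) = {i, j} :=
    (by decide : ∀ i j : Fin 2, j ≠ i → (Finset.univ : Finset (Fin 2)) = {i, j}) i j hij
  set d := G.totalDegree with hd
  have hv0 : val (x i) ≠ 0 := (zero_lt_one.trans h1).ne'
  have hterm : ∀ s ∈ G.support.erase (Finsupp.single i d),
      val (algebraMap ℂ K (G.coeff s) * ∏ k, x k ^ s k) < val (x i) ^ d := by
    intro s hs
    rw [Finset.mem_erase, MvPolynomial.mem_support_iff] at hs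
    rw [map_mul, hval _ hs.2, one_mul, huniv, Finset.prod_pair hij.symm, map_mul, map_pow, map_pow]
    have hdeg : s i + s j ≤ d := by
      have := MvPolynomial.le_totalDegree (MvPolynomial.mem_support_iff.2 hs.2)
      rw [Finsupp.sum_fintype _ _ (by simp), huniv, Finset.sum_pair hij.symm] at this
      exact this
    rcases Nat.eq_zero_or_pos (s j) with h0 | h0
    · have hlt : s i < d := by
        refine lt_of_le_of_ne (by omega) fun he => hs.1 ?_
        ext k
        have hk : k = i ∨ k = j := by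
          have : k ∈ ({i, j} : Finset (Fin 2)) := huniv ▸ Finset.mem_univ k
          simpa using this
        rcases hk with rfl | rfl
        · simp [he]
        · rw [Finsupp.single_eq_of_ne hij, h0]
      rw [h0, pow_zero, mul_one]
      exact pow_lt_pow_right₀ h1 hlt
    · calc val (x i) ^ s i * val (x j) ^ s j < val (x i) ^ s i * val (x i) ^ s j := by
            have h3 : val (x j) ^ s j < val (x i) ^ s j :=
              pow_lt_pow_left₀ h2 zero_le h0.ne'
            exact mul_lt_mul_of_pos_left h3 (pow_pos (zero_lt_iff.2 hv0) _)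
        _ = val (x i) ^ (s i + s j) := by rw [pow_add]
        _ ≤ val (x i) ^ d := pow_le_pow_right₀ h1.le hdeg
  have hmem : Finsupp.single i d ∈ G.support := MvPolynomial.mem_support_iff.2 hc
  rw [MvPolynomial.aeval_def, MvPolynomial.eval₂_eq', ← Finset.add_sum_erase _ _ hmem]
  have hlead : val (algebraMap ℂ K (G.coeff (Finsupp.single i d)) *
      ∏ k, x k ^ (Finsupp.single i d) k) = val (x i) ^ d := by
    rw [map_mul, hval _ hc, one_mul, huniv, Finset.prod_pair hij.symm, Finsupp.single_eq_same,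
      Finsupp.single_eq_of_ne hij, pow_zero, mul_one, map_pow]
  have hrest : val (∑ s ∈ G.support.erase (Finsupp.single i d),
      algebraMap ℂ K (G.coeff s) * ∏ k, x k ^ s k) < val (x i) ^ d :=
    Valuation.map_sum_lt val (pow_ne_zero _ hv0) hterm
  intro h
  have h3 := Valuation.map_add_eq_of_lt_left val (lt_of_lt_of_eq hrest hlead.symm)
  rw [h, map_zero, hlead] at h3
  exact pow_ne_zero _ hv0 h3.symm

theorem IsoFree.val_le {K : Type} [Field K] [Algebra ℂ K] {Γ : Type}
    [LinearOrderedCommGroupWithZero Γ] (val : Valuation K Γ)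
    (hval : ∀ c : ℂ, c ≠ 0 → val (algebraMap ℂ K c) = 1)
    {G : MvPolynomial (Fin 2) ℂ} (hG : IsoFree G) (hirr : Irreducible G) {ξ η : K}
    (h : ev G ξ η = 0) : val ξ ≤ max 1 (val η) ∧ val η ≤ max 1 (val ξ) := by
  have hd : G.totalDegree ≠ 0 := by
    intro h0
    rw [MvPolynomial.totalDegree_eq_zero_iff_eq_C] at h0
    refine hirr.not_isUnit ?_
    rw [h0]
    refine IsUnit.map MvPolynomial.C (isUnit_iff_ne_zero.2 fun hc => ?_)
    rw [hc, map_zero] at h0
    exact hG.1 h0
  have hc0 : G.coeff (Finsupp.single 0 G.totalDegree) ≠ 0 := by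
    have h1 : (![(X : ℂ[X]), 0] : Fin 2 → ℂ[X]) = fun j => if j = 0 then (X : ℂ[X]) else 0 := by
      funext j; fin_cases j <;> simp
    have h2 := hG.2.1
    rw [h1] at h2
    rw [← iso_coeff G 0 G.totalDegree, ← h2]
    refine leadingCoeff_ne_zero.2 fun h3 => hd ?_
    rw [← h2, h3, natDegree_zero]
  have hc1 : G.coeff (Finsupp.single 1 G.totalDegree) ≠ 0 := by
    have h1 : (![0, (X : ℂ[X])] : Fin 2 → ℂ[X]) = fun j => if j = 1 then (X : ℂ[X]) else 0 := by
      funext j; fin_cases j <;> simp
    have h2 := hG.2.2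
    rw [h1] at h2
    rw [← iso_coeff G 1 G.totalDegree, ← h2]
    refine leadingCoeff_ne_zero.2 fun h3 => hd ?_
    rw [← h2, h3, natDegree_zero]
  constructor
  · by_contra hcon
    rw [not_le, max_lt_iff] at hcon
    exact iso_val_core val hval (i := 0) (j := 1) (by decide) hc0 (x := ![ξ, η]) (by simpa using hcon.1)
      (by simpa using hcon.2) h
  · by_contra hcon
    rw [not_le, max_lt_iff] at hcon
    exact iso_val_core val hval (i := 1) (j := 0) (by decide) hc1 (x := ![ξ, η]) (by simpa using hcon.1)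
      (by simpa using hcon.2) h

theorem exists_irr_factor {K : Type} [Field K] [Algebra ℂ K] {F : MvPolynomial (Fin 2) ℂ}
    (hF : F ≠ 0) {ξ η : K} (h : ev F ξ η = 0) :
    ∃ G : MvPolynomial (Fin 2) ℂ, Irreducible G ∧ G ∣ F ∧ ev G ξ η = 0 := by
  obtain ⟨f, hf, u, hu⟩ := WfDvdMonoid.exists_factors F hF
  have h1 : ev f.prod ξ η * MvPolynomial.aeval ![ξ, η] (u : MvPolynomial (Fin 2) ℂ) = 0 := by
    rw [← h, ← hu]
    exact (map_mul (MvPolynomial.aeval ![ξ, η]) _ _).symm
  have h2 : MvPolynomial.aeval ![ξ, η] (u : MvPolynomial (Fin 2) ℂ) ≠ 0 :=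
    (u.isUnit.map (MvPolynomial.aeval ![ξ, η])).ne_zero
  have h3 := (mul_eq_zero.1 h1).resolve_right h2
  unfold ev at h3
  rw [map_multiset_prod, Multiset.prod_eq_zero_iff, Multiset.mem_map] at h3
  obtain ⟨G, hG, hG0⟩ := h3
  exact ⟨G, hf G hG, (Multiset.dvd_prod hG).trans ⟨u, hu.symm⟩, hG0⟩

/-- the real polynomial `f(x, y)` in the coordinates `ξ, η` -/
noncomputable def toIso (f : MvPolynomial (Fin 2) ℝ) : MvPolynomial (Fin 2) ℂ :=
  MvPolynomial.aeval
    ![MvPolynomial.C (1 / 2 : ℂ) * (MvPolynomial.X 0 + MvPolynomial.X 1),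
      MvPolynomial.C (-Complex.I / 2) * (MvPolynomial.X 0 - MvPolynomial.X 1)] f

lemma iso_comp (f : MvPolynomial (Fin 2) ℝ) (p q : ℂ[X]) :
    MvPolynomial.aeval ![p, q] (toIso f) =
      MvPolynomial.aeval ![C (1 / 2 : ℂ) * (p + q), C (-Complex.I / 2) * (p - q)] f := by
  unfold toIso
  induction f using MvPolynomial.induction_on with
  | C a =>
    simp only [MvPolynomial.algHom_C]
    rw [IsScalarTower.algebraMap_apply ℝ ℂ (MvPolynomial (Fin 2) ℂ),
      IsScalarTower.algebraMap_apply ℝ ℂ ℂ[X]]
    exact MvPolynomial.aeval_C _ _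
  | add f g hf hg => simp only [map_add, hf, hg]
  | mul_X f i hf =>
    simp only [map_mul, hf, MvPolynomial.aeval_X]
    congr 1
    fin_cases i
    · simp [MvPolynomial.algHom_C]
    · simp [MvPolynomial.algHom_C]

lemma iso_totalDegree_le (f : MvPolynomial (Fin 2) ℝ) :
    (toIso f).totalDegree ≤ f.totalDegree := by
  unfold toIso
  rw [MvPolynomial.aeval_def, MvPolynomial.eval₂_eq']
  refine (MvPolynomial.totalDegree_finsetSum _ _).trans (Finset.sup_le fun s hs => ?_)
  have hle : ∀ i : Fin 2, ((![MvPolynomial.C (1 / 2 : ℂ) * (MvPolynomial.X 0 + MvPolynomial.X 1),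
      MvPolynomial.C (-Complex.I / 2) * (MvPolynomial.X 0 - MvPolynomial.X 1)] :
        Fin 2 → MvPolynomial (Fin 2) ℂ) i).totalDegree ≤ 1 := by
    intro i
    fin_cases i
    · refine (MvPolynomial.totalDegree_mul _ _).trans ?_
      rw [MvPolynomial.totalDegree_C, zero_add]
      refine (MvPolynomial.totalDegree_add _ _).trans ?_
      simp [MvPolynomial.totalDegree_X]
    · refine (MvPolynomial.totalDegree_mul _ _).trans ?_
      rw [MvPolynomial.totalDegree_C, zero_add]
      refine (MvPolynomial.totalDegree_sub _ _).trans ?_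
      simp [MvPolynomial.totalDegree_X]
  refine (MvPolynomial.totalDegree_mul _ _).trans ?_
  have h1 : ((algebraMap ℝ (MvPolynomial (Fin 2) ℂ)) (f.coeff s)).totalDegree = 0 := by
    rw [IsScalarTower.algebraMap_apply ℝ ℂ (MvPolynomial (Fin 2) ℂ)]
    exact MvPolynomial.totalDegree_C _
  rw [h1, zero_add]
  refine (MvPolynomial.totalDegree_finsetProd _ _).trans ?_
  refine (Finset.sum_le_sum fun i _ => (MvPolynomial.totalDegree_pow _ _).trans
    (Nat.mul_le_mul_left _ (hle i))).trans ?_
  simp only [mul_one]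
  have := MvPolynomial.le_totalDegree hs
  rwa [Finsupp.sum_fintype _ _ (by simp)] at this

theorem isoFree_of_real {f : MvPolynomial (Fin 2) ℝ} (hf : f ≠ 0)
    (hdeg : (MvPolynomial.aeval ![(X : ℂ[X]), C Complex.I * X] f).natDegree = f.totalDegree) :
    IsoFree (toIso f) := by
  -- scaling
  have hsc : ∀ (p : ℂ[X]) (a : ℂ), a ≠ 0 → (p.comp (C a * X)).natDegree = p.natDegree := by
    intro p a ha
    rw [natDegree_comp, natDegree_C_mul_X a ha, mul_one]
  set Q : ℂ[X] := MvPolynomial.aeval ![(X : ℂ[X]), C Complex.I * X] f with hQ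
  have h2 : MvPolynomial.aeval ![0, (X : ℂ[X])] (toIso f) = Q.comp (C (1 / 2 : ℂ) * X) := by
    rw [iso_comp, hQ]
    clear hQ hdeg hf
    induction f using MvPolynomial.induction_on with
    | C a =>
      simp only [MvPolynomial.algHom_C]
      rw [IsScalarTower.algebraMap_apply ℝ ℂ ℂ[X]]
      exact (C_comp).symm
    | add f g hf hg => simp only [map_add, hf, hg, add_comp]
    | mul_X f i hf =>
      simp only [map_mul, hf, MvPolynomial.aeval_X, mul_comp]
      congr 1
      fin_cases i
      · simp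
      · simp only [Fin.mk_one, Matrix.cons_val_one, Matrix.cons_val_zero, zero_sub, mul_comp,
          C_comp, X_comp]
        rw [mul_neg, ← neg_mul, ← C_neg, ← mul_assoc, ← C_mul]
        congr 2
        ring
  have h1 : MvPolynomial.aeval ![(X : ℂ[X]), 0] (toIso f) =
      (Q.map (starRingEnd ℂ)).comp (C (1 / 2 : ℂ) * X) := by
    rw [iso_comp, hQ]
    clear hQ hdeg hf h2
    induction f using MvPolynomial.induction_on with
    | C a =>
      simp only [MvPolynomial.algHom_C]
      rw [IsScalarTower.algebraMap_apply ℝ ℂ ℂ[X]]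
      have h3 : (algebraMap ℂ ℂ[X]) ((algebraMap ℝ ℂ) a) = C (a : ℂ) := rfl
      rw [h3, Polynomial.map_C, C_comp, Complex.conj_ofReal]
    | add f g hf hg => simp only [map_add, hf, hg, add_comp, Polynomial.map_add]
    | mul_X f i hf =>
      simp only [map_mul, hf, MvPolynomial.aeval_X, mul_comp, Polynomial.map_mul]
      congr 1
      fin_cases i
      · simp
      · simp only [Fin.mk_one, Matrix.cons_val_one, Matrix.cons_val_zero, sub_zero, mul_comp,
          C_comp, X_comp, Polynomial.map_mul, Polynomial.map_C, Polynomial.map_X, Complex.conj_I]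
        rw [← mul_assoc, ← C_mul]
        congr 2
        ring
  have hd1 : (MvPolynomial.aeval ![(X : ℂ[X]), 0] (toIso f)).natDegree = f.totalDegree := by
    rw [h1, hsc _ _ (by norm_num), natDegree_map, hdeg]
  have hd2 : (MvPolynomial.aeval ![0, (X : ℂ[X])] (toIso f)).natDegree = f.totalDegree := by
    rw [h2, hsc _ _ (by norm_num), hdeg]
  have ht : (toIso f).totalDegree = f.totalDegree := by
    refine le_antisymm (iso_totalDegree_le f) ?_
    rw [← hd1]
    exact iso_natDegree_le _ _ _ (by simp) (by simp)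
  refine ⟨?_, hd1.trans ht.symm, hd2.trans ht.symm⟩
  intro h0
  have h3 : f.totalDegree = 0 := by rw [← ht, h0, MvPolynomial.totalDegree_zero]
  rw [MvPolynomial.totalDegree_eq_zero_iff_eq_C] at h3
  have h4 : toIso f = MvPolynomial.C ((f.coeff 0 : ℝ) : ℂ) := by
    unfold toIso
    rw [h3, MvPolynomial.algHom_C, IsScalarTower.algebraMap_apply ℝ ℂ (MvPolynomial (Fin 2) ℂ)]
    simp
  rw [h4] at h0
  have h5 : ((f.coeff 0 : ℝ) : ℂ) = 0 := by
    rw [← MvPolynomial.C_0] at h0
    exact MvPolynomial.C_injective _ _ h0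
  rw [Complex.ofReal_eq_zero] at h5
  rw [h5, MvPolynomial.C_0] at h3
  exact hf h3

theorem eval_toIso (f : MvPolynomial (Fin 2) ℝ) (x y : ℝ) :
    MvPolynomial.eval ![(x : ℂ) + y * Complex.I, (x : ℂ) - y * Complex.I] (toIso f) =
      ((MvPolynomial.eval ![x, y] f : ℝ) : ℂ) := by
  unfold toIso
  induction f using MvPolynomial.induction_on with
  | C a =>
    rw [MvPolynomial.algHom_C, MvPolynomial.eval_C,
      IsScalarTower.algebraMap_apply ℝ ℂ (MvPolynomial (Fin 2) ℂ)]
    exact MvPolynomial.eval_C _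
  | add f g hf hg => simp only [map_add, hf, hg, Complex.ofReal_add]
  | mul_X f i hf =>
    simp only [map_mul, hf, MvPolynomial.aeval_X, Complex.ofReal_mul, MvPolynomial.eval_X]
    congr 1
    fin_cases i
    · simp
      ring
    · simp only [Fin.mk_one, Matrix.cons_val_one, Matrix.cons_val_zero, map_mul, map_sub,
        MvPolynomial.eval_C, MvPolynomial.eval_X]
      linear_combination (-(y : ℂ)) * Complex.I_mul_I

end Pool.Agent.H6.IvA
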