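import Pool.Agent.H6.Ivrii.Arc
import Pool.Agent.H6.IvA.Iso

/-!
Complex form of an algebraic arc: on-curve equation for `toIso f` and the reflection law in complex form.
-/

set_option autoImplicit false

namespace Pool.Agent.H6.IvA

open ComplexConjugate Polynomial
open Pool.Agent.H6.Ivrii (toC)

theorem toC_eq (p : ℝ × ℝ) : toC p = (p.1 : ℂ) + p.2 * Complex.I := by
  apply Complex.ext <;> simp [toC]

theorem deriv_toC (γ : ℝ → ℝ × ℝ) (hd : Differentiable ℝ γ) :
    Differentiable ℝ (fun s => toC (γ s)) ∧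
      ∀ s, deriv (fun s => toC (γ s)) s = toC (deriv γ s) := by
  have key : ∀ s, HasDerivAt (fun s => toC (γ s)) (toC (deriv γ s)) s := by
    intro s
    have h := (hd s).hasDerivAt
    have h1 : HasDerivAt (fun s => (γ s).1) (deriv γ s).1 s :=
      (ContinuousLinearMap.fst ℝ ℝ ℝ).hasFDerivAt.comp_hasDerivAt s h
    have h2 : HasDerivAt (fun s => (γ s).2) (deriv γ s).2 s :=
      (ContinuousLinearMap.snd ℝ ℝ ℝ).hasFDerivAt.comp_hasDerivAt s h
    have h3 := (h1.ofReal_comp).add ((h2.ofReal_comp).mul_const Complex.I)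
    rw [toC_eq]
    refine h3.congr_of_eventuallyEq (Filter.Eventually.of_forall fun t => ?_)
    simp [toC_eq]
  exact ⟨fun s => (key s).differentiableAt, fun s => (key s).deriv⟩

theorem refl_toC (N V : ℝ × ℝ) (hN : N ≠ 0) :
    toC (V - (2 * (V.1 * (-N.2) + V.2 * N.1) / (N.1 ^ 2 + N.2 ^ 2)) • (-N.2, N.1)) =
      toC N / conj (toC N) * conj (toC V) := by
  obtain ⟨a, b⟩ := N
  obtain ⟨x, y⟩ := V
  have hab : a ^ 2 + b ^ 2 ≠ 0 := by
    intro h
    apply hN
    have ha : a = 0 := by nlinarith [sq_nonneg a, sq_nonneg b]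
    have hb : b = 0 := by nlinarith [sq_nonneg a, sq_nonneg b]
    rw [ha, hb]
    rfl
  have hc : conj (toC (a, b)) ≠ 0 := by
    rw [ne_eq, map_eq_zero]
    intro h
    apply hN
    have h1 := congrArg Complex.re h
    have h2 := congrArg Complex.im h
    exact Prod.ext h1 h2
  rw [div_mul_eq_mul_div, eq_div_iff hc]
  apply Complex.ext
  · simp [toC]
    field_simp
    ring
  · simp [toC]
    field_simp
    ring

theorem on_toIso (f : MvPolynomial (Fin 2) ℝ) (p : ℝ × ℝ)
    (h : MvPolynomial.eval ![p.1, p.2] f = 0) :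
    MvPolynomial.eval ![toC p, conj (toC p)] (toIso f) = 0 := by
  have h1 := eval_toIso f p.1 p.2
  rw [h] at h1
  have h2 : conj (toC p) = (p.1 : ℂ) - p.2 * Complex.I := by
    apply Complex.ext <;> simp [toC]
  rw [h2, toC_eq, h1]
  simp

end Pool.Agent.H6.IvA
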