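import Pool.Agent.H6.IvA.Defs

/-!
JOB AV-4. Derivations.
* `exists_derivation`: `K` a field over `ℂ`, `T` transcendental: a transcendence basis `B ∋ T` (`exists_isTranscendenceBasis_superset` or similar), `∂/∂T` on `MvPolynomial B ℂ`, extended to the fraction field and to the algebraic
  (separable) extension `K` (`Algebra.FormallyEtale.of_isSeparable`, `KaehlerDifferential.tensorKaehlerEquivOfFormallyEtale`, `KaehlerDifferential.mvPolynomialBasis`; localisations are formally étale).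
* `path_deriv`: for a derivation `D` put `Φ(s) = v Dη + v⁻¹ Dξ`. Flight: `2 Df = v D(η' - η) + v⁻¹ D(ξ' - ξ)`. Vertex: `G_ξ Dξ' + G_η Dη' = 0` (apply `D` to `G(ξ',η') = 0`: chain rule, `G` has constant coefficients), hence
  `Dξ' = v v' Dη'` and `v Dη' + v⁻¹ Dξ' = v' Dη' + v'⁻¹ Dξ'`. So `2 D T = Φ(s) - Φ(s0)`. (`v' ≠ 0`: hypothesis; if `G_ξ(ξ',η') = 0`... it is a hypothesis `hreg` that it is not.)
-/

set_option autoImplicit false

namespace Pool.Agent.H6.IvA

variable {K : Type} [Field K] [Algebra ℂ K]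

open TensorProduct in
open scoped IntermediateField.algebraAdjoinAdjoin in
theorem der_extend {S : Set K}
    (hS : Algebra.IsAlgebraic (IntermediateField.adjoin ℂ S) K)
    (D0 : Derivation ℂ (Algebra.adjoin ℂ S) (Algebra.adjoin ℂ S)) :
    ∃ D : Derivation ℂ K K, ∀ a : Algebra.adjoin ℂ S, D (a : K) = ((D0 a : Algebra.adjoin ℂ S) : K) := by
  have hchar : CharZero (IntermediateField.adjoin ℂ S) := inferInstance
  have hsep : Algebra.IsSeparable (IntermediateField.adjoin ℂ S) K := inferInstance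
  have h1 : Algebra.FormallyEtale (Algebra.adjoin ℂ S) (IntermediateField.adjoin ℂ S) :=
    Algebra.FormallyEtale.of_isLocalization (nonZeroDivisors (Algebra.adjoin ℂ S))
  have h2 : Algebra.FormallyEtale (IntermediateField.adjoin ℂ S) K :=
    Algebra.FormallyEtale.of_isSeparable _ _
  have h3 : Algebra.FormallyEtale (Algebra.adjoin ℂ S) K :=
    Algebra.FormallyEtale.comp (Algebra.adjoin ℂ S) (IntermediateField.adjoin ℂ S) K
  let e := KaehlerDifferential.tensorKaehlerEquivOfFormallyEtale ℂ (Algebra.adjoin ℂ S) K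
  let L : Ω[(Algebra.adjoin ℂ S)⁄ℂ] →ₗ[Algebra.adjoin ℂ S] Algebra.adjoin ℂ S := D0.liftKaehlerDifferential
  let LK : K ⊗[Algebra.adjoin ℂ S] Ω[(Algebra.adjoin ℂ S)⁄ℂ] →ₗ[K] K :=
    (AlgebraTensorModule.rid (Algebra.adjoin ℂ S) K K).toLinearMap ∘ₗ (L.baseChange K)
  refine ⟨(LK ∘ₗ e.symm.toLinearMap).compDer (KaehlerDifferential.D ℂ K), ?_⟩
  intro a
  show LK (e.symm (KaehlerDifferential.D ℂ K (algebraMap (Algebra.adjoin ℂ S) K a))) = _
  rw [KaehlerDifferential.tensorKaehlerEquivOfFormallyEtale_symm_D_algebraMap]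
  show (AlgebraTensorModule.rid (Algebra.adjoin ℂ S) K K) ((L.baseChange K)
    ((1 : K) ⊗ₜ[Algebra.adjoin ℂ S] (KaehlerDifferential.D ℂ (Algebra.adjoin ℂ S)) a)) = _
  rw [LinearMap.baseChange_tmul, AlgebraTensorModule.rid_tmul, Derivation.liftKaehlerDifferential_comp_D]
  rw [Algebra.smul_def, mul_one]
  rfl

theorem exists_derivation (T : K) (hT : Transcendental ℂ T) :
    ∃ D : Derivation ℂ K K, D T ≠ 0 := by
  classical
  have hT' : AlgebraicIndepOn ℂ id ({T} : Set K) := by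
    exact algebraicIndependent_unique_type_iff.mpr hT
  obtain ⟨B, hTB, hB⟩ := exists_isTranscendenceBasis_superset hT'
  have hTB' : T ∈ B := hTB rfl
  let i0 : B := ⟨T, hTB'⟩
  let e := hB.1.aevalEquiv
  let D0 : Derivation ℂ (Algebra.adjoin ℂ (Set.range ((↑) : B → K)))
      (Algebra.adjoin ℂ (Set.range ((↑) : B → K))) :=
    Derivation.mk' (e.toLinearMap ∘ₗ ((MvPolynomial.pderiv i0).toLinearMap) ∘ₗ e.symm.toLinearMap) (by
      intro a b
      simp)
  have halg : Algebra.IsAlgebraic (IntermediateField.adjoin ℂ (Set.range ((↑) : B → K))) K :=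
    hB.isAlgebraic_field
  obtain ⟨D, hD⟩ := der_extend halg D0
  refine ⟨D, ?_⟩
  have h1 : ((e (MvPolynomial.X i0) : Algebra.adjoin ℂ (Set.range ((↑) : B → K))) : K) = T := by
    have := hB.1.algebraMap_aevalEquiv (MvPolynomial.X i0)
    rw [MvPolynomial.aeval_X] at this
    exact this
  have h2 := hD (e (MvPolynomial.X i0))
  rw [h1] at h2
  rw [h2]
  have h3 : D0 (e (MvPolynomial.X i0)) = 1 := by
    show e (MvPolynomial.pderiv i0 (e.symm (e (MvPolynomial.X i0)))) = 1
    rw [AlgEquiv.symm_apply_apply, MvPolynomial.pderiv_X_self, map_one]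
  rw [h3]
  simp

theorem deriv_ev (D : Derivation ℂ K K) (G : MvPolynomial (Fin 2) ℂ) (ξ η : K) :
    D (ev G ξ η) = ev (MvPolynomial.pderiv 0 G) ξ η * D ξ +
      ev (MvPolynomial.pderiv 1 G) ξ η * D η := by
  induction G using MvPolynomial.induction_on with
  | C a =>
    simp [ev]
  | add p q hp hq =>
    simp only [ev, map_add] at hp hq ⊢
    rw [hp, hq]; ring
  | mul_X p i hp =>
    simp only [ev, map_mul, Derivation.leibniz, MvPolynomial.aeval_X, smul_eq_mul, map_add,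
      MvPolynomial.pderiv_X] at hp ⊢
    rw [hp]
    fin_cases i
    · simp; ring
    · simp; ring

theorem bounce_deriv (D : Derivation ℂ K K) {G : MvPolynomial (Fin 2) ℂ} {s s' : K × K × K}
    {f : K} (hb : Bounce G s f s') (hv : s'.2.2 ≠ 0)
    (hreg : ev (MvPolynomial.pderiv 0 G) s'.1 s'.2.1 ≠ 0) :
    2 * D f = (s'.2.2 * D s'.2.1 + s'.2.2⁻¹ * D s'.1) -
      (s.2.2 * D s.2.1 + s.2.2⁻¹ * D s.1) := by
  obtain ⟨ξ, η, v⟩ := s
  obtain ⟨ξ', η', v'⟩ := s'
  have hv0 : v ≠ 0 := hb.v0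
  have h1 : ξ' = ξ + f * v := hb.xi
  have h2 : η' = η + f * v⁻¹ := hb.eta
  have h3 := deriv_ev D G ξ' η'
  rw [show ev G ξ' η' = 0 from hb.on, map_zero] at h3
  have h4 : v * v' * ev (MvPolynomial.pderiv 0 G) ξ' η' = -ev (MvPolynomial.pderiv 1 G) ξ' η' :=
    hb.refl
  have hreg' : ev (MvPolynomial.pderiv 0 G) ξ' η' ≠ 0 := hreg
  have hv' : v' ≠ 0 := hv
  show 2 * D f = (v' * D η' + v'⁻¹ * D ξ') - (v * D η + v⁻¹ * D ξ)
  have h5 : D ξ' = v * v' * D η' := by
    apply mul_left_cancel₀ hreg'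
    linear_combination (-1 : K) * h3 - D η' * h4
  have h6 : D ξ' = D ξ + f * D v + v * D f := by
    rw [h1]; simp [Derivation.leibniz]; ring
  have h7 : v * η' = v * η + f := by rw [h2]; field_simp
  have h8 := congrArg D h7
  simp only [map_add, Derivation.leibniz, smul_eq_mul] at h8
  -- v Dη' + η' Dv = v Dη + η Dv + Df
  have h9 : η' - η = f * v⁻¹ := by rw [h2]; ring
  have h10 : v * D η' = v * D η - f * v⁻¹ * D v + D f := by
    linear_combination h8 - D v * h9
  have h11 : v'⁻¹ * D ξ' = v * D η' := by rw [h5]; field_simp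
  have h12 : v' * D η' = v⁻¹ * D ξ' := by rw [h5]; field_simp
  rw [h11, h12, h6, h10]
  field_simp
  ring

end Pool.Agent.H6.IvA
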