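import Mathlib
import Pool.Agent.H6.Ivrii.Null
import Pool.Agent.H6.Ivrii.Null

/-!
JOB AV-6. A non-zero polynomial in `(conj γ(s), exp (i θ))` vanishes only on a null set of `(s, θ)`, `γ` continuous and injective on `(0,1)`.
For all `θ` outside a countable set the polynomial `F(·, exp (i θ))` in one variable is not zero (some coefficient, a polynomial in the second variable, does not vanish there), so it has finitely many roots; `γ` is injective,
so the section is finite. Measurability: continuity. Fubini (compare `Pool/Agent/H6/Ivrii/Null.lean`, same technique, done by helper97).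
-/

set_option autoImplicit false

namespace Pool.Agent.H6.IvA

open ComplexConjugate MeasureTheory

theorem null_zeroA (γ : ℝ → ℂ) (hγ : Continuous γ) (hinj : Set.InjOn γ (Set.Ioo (0 : ℝ) 1))
    (F : MvPolynomial (Fin 2) ℂ) (hF : F ≠ 0) :
    volume {x : ℝ × ℝ | x.1 ∈ Set.Ioo (0 : ℝ) 1 ∧
      MvPolynomial.eval ![conj (γ x.1), Complex.exp (x.2 * Complex.I)] F = 0} = 0 := by
  set S : Set (ℝ × ℝ) := {x : ℝ × ℝ | x.1 ∈ Set.Ioo (0 : ℝ) 1 ∧
      MvPolynomial.eval ![conj (γ x.1), Complex.exp (x.2 * Complex.I)] F = 0} with hS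
  -- measurability
  have hmeas : MeasurableSet S := by
    have h1 : MeasurableSet {x : ℝ × ℝ | x.1 ∈ Set.Ioo (0 : ℝ) 1} :=
      measurableSet_Ioo.preimage measurable_fst
    have h2 : Continuous (fun x : ℝ × ℝ =>
        MvPolynomial.eval ![conj (γ x.1), Complex.exp (x.2 * Complex.I)] F) := by
      refine (MvPolynomial.continuous_eval F).comp ?_
      refine continuous_pi fun i => ?_
      have c1 : Continuous (fun x : ℝ × ℝ => Complex.exp (x.2 * Complex.I)) := by fun_prop
      have c2 : Continuous (fun x : ℝ × ℝ => γ x.1) := hγ.comp continuous_fst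
      fin_cases i
      · exact Complex.continuous_conj.comp c2
      · exact c1
    exact h1.inter (isClosed_singleton.preimage h2).measurableSet
  -- swap the variables
  set F' := MvPolynomial.rename (Equiv.swap (0 : Fin 2) 1) F with hF'
  have hF'0 : F' ≠ 0 := by
    intro h
    apply hF
    apply MvPolynomial.rename_injective _ (Equiv.swap (0 : Fin 2) 1).injective
    rw [← hF', h, map_zero]
  have hF'e : ∀ p q : ℂ, MvPolynomial.eval ![q, p] F' = MvPolynomial.eval ![p, q] F := by
    intro p q
    rw [hF', MvPolynomial.eval_rename]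
    congr 2
    funext j
    fin_cases j <;> simp [Equiv.swap_apply_left, Equiv.swap_apply_right]
  obtain ⟨N, hN, hNf⟩ := Pool.Agent.H6.Ivrii.nz_partial F' hF'0
  -- the sections
  have hsec : ∀ θ : ℝ, Complex.exp (θ * Complex.I) ∉ N → {s : ℝ | (s, θ) ∈ S}.Finite := by
    intro θ hθ
    have h1 := hNf _ hθ
    have h2 : {s : ℝ | (s, θ) ∈ S} ⊆ Set.Ioo (0 : ℝ) 1 ∩ (fun s => conj (γ s)) ⁻¹' {q : ℂ |
        MvPolynomial.eval ![Complex.exp (θ * Complex.I), q] F' = 0} := by
      rintro s ⟨hs, hs2⟩
      refine ⟨hs, ?_⟩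
      rw [Set.mem_preimage, Set.mem_setOf_eq, hF'e]
      exact hs2
    refine Set.Finite.subset ?_ h2
    refine Set.Finite.of_finite_image (f := fun s => conj (γ s)) (h1.subset ?_) ?_
    · rintro _ ⟨s, hs, rfl⟩
      exact hs.2
    · intro s hs t ht hst
      exact hinj hs.1 ht.1 ((starRingEnd ℂ).injective hst)
  -- Fubini
  have hswap : volume (Prod.swap ⁻¹' S : Set (ℝ × ℝ)) = volume S :=
    (Measure.measurePreserving_swap (μ := (volume : Measure ℝ))
      (ν := (volume : Measure ℝ))).measure_preimage hmeas.nullMeasurableSet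
  rw [← hswap]
  change (volume.prod volume : Measure (ℝ × ℝ)) (Prod.swap ⁻¹' S) = 0
  rw [Measure.measure_prod_null (hmeas.preimage measurable_swap)]
  have hae : ∀ᵐ θ : ℝ, θ ∉ {θ : ℝ | Complex.exp (θ * Complex.I) ∈ N} :=
    (Pool.Agent.H6.Ivrii.nz_countable hN).ae_notMem volume
  filter_upwards [hae] with θ hθ
  exact (hsec θ hθ).measure_zero volume

end Pool.Agent.H6.IvA
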