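import Pool.Agent.H6.IvA.Elim

/-!
JOB AV-3. One bounce at an isotropic line (step 3 of the paper proof).
`Plus val s`: `1 < val v`, `val ξ ≤ 1`, `Tr η`. `Minus val s`: `v ≠ 0`, `val v < 1`, `val η ≤ 1`, `Tr ξ`.
`pos_plus`: `η' - η = (ξ' - ξ) / v ^ 2`; if `val ξ' > 1` then `val ξ' ≤ max 1 (val η')` gives `val ξ' ≤ val η'`, but `val η' ≤ max (val η) (val (ξ'-ξ) / val v ^ 2) < val ξ'`. So `val ξ' ≤ 1`, `val η' ≤ 1`,
`val (η' - η) < 1`, so `Tr η'` (`aeval η' p - aeval η p` is divisible by `η' - η`), `Tr ξ'` by `tr_other`; `val f = val (ξ'-ξ) / val v < 1`.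
`step_plus`: the two partial derivatives have value 1 (`val_unit`, `not_dvd_pderiv`), so
`val v * val v' = 1`. The minus statements are the mirror images. (`Tr z` implies `val z = 1`, take `p = X`.)
-/

set_option autoImplicit false

namespace Pool.Agent.H6.IvA

open Polynomial

variable {K : Type} [Field K] [Algebra ℂ K] {Γ : Type} [LinearOrderedCommGroupWithZero Γ]

/-- isotropic line of the first kind -/
def Plus (val : Valuation K Γ) (s : K × K × K) : Prop :=
  1 < val s.2.2 ∧ val s.1 ≤ 1 ∧ Tr val s.2.1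

/-- isotropic line of the second kind -/
def Minus (val : Valuation K Γ) (s : K × K × K) : Prop :=
  s.2.2 ≠ 0 ∧ val s.2.2 < 1 ∧ val s.2.1 ≤ 1 ∧ Tr val s.1

omit [Algebra ℂ K] in
theorem sv_le_max_sub (val : Valuation K Γ) (a b : K) : val (a - b) ≤ max (val a) (val b) :=
  Valuation.map_sub val a b

theorem sv_const (val : Valuation K Γ) (hval : ∀ c : ℂ, c ≠ 0 → val (algebraMap ℂ K c) = 1)
    (c : ℂ) : val (algebraMap ℂ K c) ≤ 1 := by
  by_cases h : c = 0
  · rw [h, map_zero, map_zero]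
    exact zero_le_one
  · exact (hval c h).le

theorem Tr.val_eq_one {val : Valuation K Γ} {z : K} (h : Tr val z) : val z = 1 := by
  have := h X X_ne_zero
  rwa [aeval_X] at this

/-- polynomials are Lipschitz on the valuation ring -/
theorem sv_lip (val : Valuation K Γ) (hval : ∀ c : ℂ, c ≠ 0 → val (algebraMap ℂ K c) = 1)
    {x y : K} (hx : val x ≤ 1) (hy : val y ≤ 1) (p : ℂ[X]) :
    val (aeval y p - aeval x p) ≤ val (y - x) := by
  have hpow : ∀ n : ℕ, val (y ^ n - x ^ n) ≤ val (y - x) := by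
    intro n
    induction n with
    | zero => rw [pow_zero, pow_zero, sub_self, map_zero]; exact zero_le
    | succ n ih =>
      have h1 : y ^ (n + 1) - x ^ (n + 1) = y * (y ^ n - x ^ n) + (y - x) * x ^ n := by ring
      rw [h1]
      refine (val.map_add _ _).trans (max_le ?_ ?_)
      · rw [map_mul]
        exact (mul_le_of_le_one_left' hy).trans ih
      · rw [map_mul, map_pow]
        exact mul_le_of_le_one_right' (pow_le_one' hx n)
  induction p using Polynomial.induction_on' with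
  | add p q hp hq =>
    have h1 : aeval y (p + q) - aeval x (p + q) =
        (aeval y p - aeval x p) + (aeval y q - aeval x q) := by
      rw [map_add, map_add]; ring
    rw [h1]
    exact (val.map_add _ _).trans (max_le hp hq)
  | monomial n a =>
    rw [aeval_monomial, aeval_monomial, ← mul_sub, map_mul]
    exact (mul_le_of_le_one_left' (sv_const val hval a)).trans (hpow n)

theorem Tr.of_close {val : Valuation K Γ} (hval : ∀ c : ℂ, c ≠ 0 → val (algebraMap ℂ K c) = 1)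
    {x y : K} (h : Tr val x) (hxy : val (y - x) < 1) : Tr val y := by
  have hx : val x ≤ 1 := h.val_eq_one.le
  have hy : val y ≤ 1 := by
    have h1 : y = (y - x) + x := by ring
    rw [h1]
    exact (val.map_add _ _).trans (max_le hxy.le hx)
  intro p hp
  have h1 := h p hp
  have h2 : val (aeval y p - aeval x p) < 1 := (sv_lip val hval hx hy p).trans_lt hxy
  have h3 : aeval y p = (aeval y p - aeval x p) + aeval x p := by ring
  rw [h3, Valuation.map_add_eq_of_lt_right val (by rw [h1]; exact h2), h1]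

/-- the core of one flight at an isotropic line -/
theorem sv_core (val : Valuation K Γ) (hval : ∀ c : ℂ, c ≠ 0 → val (algebraMap ℂ K c) = 1)
    {a b w f a' b' : K} (hw : 1 < val w) (ha : val a ≤ 1) (hb : Tr val b)
    (h1 : a' = a + f * w) (h2 : b' = b + f * w⁻¹) (h : val a' ≤ max 1 (val b')) :
    val f < 1 ∧ val a' ≤ 1 ∧ val b' ≤ 1 ∧ Tr val b' := by
  have hw0 : w ≠ 0 := by
    intro h0
    rw [h0, map_zero] at hw
    exact absurd hw (not_lt.2 zero_le_one)
  have hw0' : (0 : Γ) < val w := lt_trans zero_lt_one hw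
  have hwi : (val w)⁻¹ < 1 := inv_lt_one_of_one_lt₀ hw
  have hf : f = (a' - a) * w⁻¹ := by
    rw [h1]; field_simp; ring
  have hb1 : val b = 1 := hb.val_eq_one
  have hvf : val f = val (a' - a) * (val w)⁻¹ := by rw [hf, map_mul, map_inv₀]
  have hbd : b' - b = f * w⁻¹ := by rw [h2]; ring
  have hvb : val (b' - b) = val f * (val w)⁻¹ := by rw [hbd, map_mul, map_inv₀]
  have ha' : val a' ≤ 1 := by
    by_contra hcon
    rw [not_le] at hcon
    have e1 : val a' ≤ val b' := by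
      rcases le_max_iff.1 h with h3 | h3
      · exact absurd h3 (not_le.2 hcon)
      · exact h3
    have e2 : val (a' - a) ≤ val a' :=
      (sv_le_max_sub val a' a).trans (max_le le_rfl (ha.trans hcon.le))
    have e3 : val f ≤ val a' := by
      rw [hvf]
      exact (mul_le_of_le_one_right' hwi.le).trans e2
    have hpos : (0 : Γ) < val a' := lt_trans zero_lt_one hcon
    have e4 : val (b' - b) < val a' := by
      rw [hvb]
      calc val f * (val w)⁻¹ ≤ val a' * (val w)⁻¹ := mul_le_mul_left e3 _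
        _ < val a' * 1 := mul_lt_mul_of_pos_left hwi hpos
        _ = val a' := mul_one _
    have e5 : val b' < val a' := by
      have h3 : b' = (b' - b) + b := by ring
      rw [h3]
      refine (val.map_add _ _).trans_lt (max_lt e4 ?_)
      rw [hb1]
      exact hcon
    exact absurd e1 (not_le.2 e5)
  have hsub : val (a' - a) ≤ 1 := (sv_le_max_sub val a' a).trans (max_le ha' ha)
  have hf1 : val f < 1 := by
    rw [hvf]
    exact (mul_le_of_le_one_left' hsub).trans_lt hwi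
  have hbb : val (b' - b) < 1 := by
    rw [hvb]
    exact (mul_le_of_le_one_left' hf1.le).trans_lt hwi
  have htr : Tr val b' := hb.of_close hval hbb
  exact ⟨hf1, ha', htr.val_eq_one.le, htr⟩

theorem pos_plus (val : Valuation K Γ) (hval : ∀ c : ℂ, c ≠ 0 → val (algebraMap ℂ K c) = 1)
    {G : MvPolynomial (Fin 2) ℂ} (hirr : Irreducible G) (hiso : IsoFree G) {ξ η v f ξ' η' : K}
    (hv : 1 < val v) (hξ : val ξ ≤ 1) (hη : Tr val η) (h1 : ξ' = ξ + f * v)
    (h2 : η' = η + f * v⁻¹) (h : ev G ξ' η' = 0) :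
    val f < 1 ∧ val ξ' ≤ 1 ∧ val η' ≤ 1 ∧ Tr val ξ' ∧ Tr val η' := by
  obtain ⟨e1, e2, e3, e4⟩ := sv_core val hval hv hξ hη h1 h2 (hiso.val_le val hval hirr h).1
  exact ⟨e1, e2, e3, (tr_other val hval hirr hiso h e2 e3).2 e4, e4⟩

theorem pos_minus (val : Valuation K Γ) (hval : ∀ c : ℂ, c ≠ 0 → val (algebraMap ℂ K c) = 1)
    {G : MvPolynomial (Fin 2) ℂ} (hirr : Irreducible G) (hiso : IsoFree G) {ξ η v f ξ' η' : K}
    (hv0 : v ≠ 0) (hv : val v < 1) (hη : val η ≤ 1) (hξ : Tr val ξ) (h1 : ξ' = ξ + f * v)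
    (h2 : η' = η + f * v⁻¹) (h : ev G ξ' η' = 0) :
    val f < 1 ∧ val ξ' ≤ 1 ∧ val η' ≤ 1 ∧ Tr val ξ' ∧ Tr val η' := by
  have hw : 1 < val v⁻¹ := by
    rw [map_inv₀]
    exact (one_lt_inv₀ ((Valuation.pos_iff val).2 hv0)).2 hv
  have h1' : ξ' = ξ + f * (v⁻¹)⁻¹ := by rw [inv_inv]; exact h1
  obtain ⟨e1, e2, e3, e4⟩ := sv_core val hval hw hη hξ h2 h1' (hiso.val_le val hval hirr h).2
  exact ⟨e1, e3, e2, e4, (tr_other val hval hirr hiso h e3 e2).1 e4⟩

/-- the reflection law -/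
theorem sv_refl (val : Valuation K Γ) (hval : ∀ c : ℂ, c ≠ 0 → val (algebraMap ℂ K c) = 1)
    {G : MvPolynomial (Fin 2) ℂ} {s s' : K × K × K} {f : K} (hb : Bounce G s f s')
    (h1 : val s'.1 ≤ 1) (h2 : val s'.2.1 ≤ 1) (h3 : Tr val s'.2.1) :
    val s.2.2 * val s'.2.2 = 1 ∧ ev (MvPolynomial.pderiv 0 G) s'.1 s'.2.1 ≠ 0 := by
  have e0 := val_unit val hval hb.irr hb.iso (not_dvd_pderiv hb.irr hb.iso 0) hb.on h1 h2 h3
  have e1 := val_unit val hval hb.irr hb.iso (not_dvd_pderiv hb.irr hb.iso 1) hb.on h1 h2 h3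
  have e2 := congrArg val hb.refl
  rw [map_mul, map_mul, e0, Valuation.map_neg, e1, mul_one] at e2
  refine ⟨e2, fun h0 => ?_⟩
  rw [h0, map_zero] at e0
  exact zero_ne_one e0

theorem step_plus (val : Valuation K Γ) (hval : ∀ c : ℂ, c ≠ 0 → val (algebraMap ℂ K c) = 1)
    {G : MvPolynomial (Fin 2) ℂ} {s s' : K × K × K} {f : K} (hs : Plus val s)
    (hb : Bounce G s f s') : val f < 1 ∧ Minus val s' ∧
      ev (MvPolynomial.pderiv 0 G) s'.1 s'.2.1 ≠ 0 := by
  obtain ⟨hv, hξ, hη⟩ := hs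
  obtain ⟨e1, e2, e3, e4, e5⟩ := pos_plus val hval hb.irr hb.iso hv hξ hη hb.xi hb.eta hb.on
  obtain ⟨r1, r2⟩ := sv_refl val hval hb e2 e3 e5
  refine ⟨e1, ⟨?_, ?_, e3, e4⟩, r2⟩
  · intro h0
    rw [h0, map_zero, mul_zero] at r1
    exact zero_ne_one r1
  · rw [eq_inv_of_mul_eq_one_right r1]
    exact inv_lt_one_of_one_lt₀ hv

theorem step_minus (val : Valuation K Γ) (hval : ∀ c : ℂ, c ≠ 0 → val (algebraMap ℂ K c) = 1)
    {G : MvPolynomial (Fin 2) ℂ} {s s' : K × K × K} {f : K} (hs : Minus val s)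
    (hb : Bounce G s f s') : val f < 1 ∧ Plus val s' ∧
      ev (MvPolynomial.pderiv 0 G) s'.1 s'.2.1 ≠ 0 := by
  obtain ⟨hv0, hv, hη, hξ⟩ := hs
  obtain ⟨e1, e2, e3, e4, e5⟩ := pos_minus val hval hb.irr hb.iso hv0 hv hη hξ hb.xi hb.eta hb.on
  obtain ⟨r1, r2⟩ := sv_refl val hval hb e2 e3 e5
  refine ⟨e1, ⟨?_, e2, e5⟩, r2⟩
  rw [eq_inv_of_mul_eq_one_right r1]
  exact (one_lt_inv₀ ((Valuation.pos_iff val).2 hv0)).2 hv

end Pool.Agent.H6.IvA
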