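import Pool.Agent.H6.IvA.Defs

/-!
JOB AV-5. The valuation of `K`. Let `k₀` be the algebraic closure of `ℂ(η)` in `K` (integral closure; a subfield, integrally closed in `K`); `v` is transcendental over `ℂ(η)`, so `v ∉ k₀`;
`Subring.exists_le_valuationSubring_of_isIntegrallyClosedIn` gives a valuation subring `O ⊇ k₀` with `v ∉ O`; elements of `k₀` and their inverses are in `O`, so they have value 1.
(Compare `Pool/Agent/H6/Ivrii/ValF.lean`, which does the case of `ℂ` instead of `ℂ(η)`.)
-/

set_option autoImplicit false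

namespace Pool.Agent.H6.IvA

open Polynomial

theorem isIntegrallyClosedIn_algebraicClosure (F E : Type) [Field F] [Field E] [Algebra F E] :
    IsIntegrallyClosedIn (algebraicClosure F E).toSubring E := by
  rw [Subring.isIntegrallyClosedIn_iff]
  intro y hy
  have hy1 : IsIntegral (algebraicClosure F E) y := hy
  have hy2 : IsIntegral F y := isIntegral_trans y hy1
  exact mem_algebraicClosure_iff.2 hy2.isAlgebraic

theorem exists_valK {K : Type} [Field K] [Algebra ℂ K] (η v : K)
    (h : AlgebraicIndependent ℂ ![η, v]) :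
    ∃ (Γ : Type) (_ : LinearOrderedCommGroupWithZero Γ) (val : Valuation K Γ),
      (∀ c : ℂ, c ≠ 0 → val (algebraMap ℂ K c) = 1) ∧ Tr val η ∧ 1 < val v := by
  classical
  have hη : Transcendental ℂ η := h.transcendental 0
  have hv : Transcendental (Algebra.adjoin ℂ {η}) v := by
    have := h.transcendental_adjoin (s := {0}) (i := 1) (by simp)
    rwa [Set.image_singleton] at this
  have hv' : ¬ IsAlgebraic (IntermediateField.adjoin ℂ {η}) v := by
    rw [IntermediateField.isAlgebraic_adjoin_iff]
    exact hv
  set F := IntermediateField.adjoin ℂ ({η} : Set K) with hF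
  have hxR : v ∉ (algebraicClosure F K).toSubring := fun hm =>
    hv' (mem_algebraicClosure_iff.1 hm)
  have := isIntegrallyClosedIn_algebraicClosure F K
  obtain ⟨V, hV, hxV⟩ := Subring.exists_le_valuationSubring_of_isIntegrallyClosedIn hxR
  have hFm : ∀ z : K, z ∈ F → z ∈ V := fun z hz =>
    hV (show z ∈ algebraicClosure F K from (algebraicClosure F K).algebraMap_mem ⟨z, hz⟩)
  have hone : ∀ z : K, z ∈ F → z ≠ 0 → V.valuation z = 1 := by
    intro z hz hz0
    have h1 := (V.valuation_le_one_iff _).2 (hFm z hz)
    have h2 := (V.valuation_le_one_iff _).2 (hFm z⁻¹ (F.inv_mem hz))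
    have h3 : V.valuation z * V.valuation z⁻¹ = 1 := by
      rw [← map_mul, mul_inv_cancel₀ hz0, map_one]
    refine le_antisymm h1 ?_
    rw [← h3]
    exact mul_le_of_le_one_right' h2
  refine ⟨V.ValueGroup, inferInstance, V.valuation, ?_, ?_, ?_⟩
  · intro c hc
    exact hone _ (F.algebraMap_mem c) (by simpa using hc)
  · intro p hp
    refine hone _ ?_ ?_
    · have hmem : η ∈ F := IntermediateField.subset_adjoin ℂ _ (Set.mem_singleton η)
      have := (aeval (R := ℂ) (⟨η, hmem⟩ : F) p).2
      have h2 : ((aeval (R := ℂ) (⟨η, hmem⟩ : F) p : F) : K) = aeval η p := by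
        have := Polynomial.aeval_algHom_apply F.val (⟨η, hmem⟩ : F) p
        simpa using this.symm
      rw [← h2]
      exact this
    · intro h0
      exact hη ⟨p, hp, h0⟩
  · exact not_le.1 fun hle => hxV ((V.valuation_le_one_iff _).1 hle)

end Pool.Agent.H6.IvA
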