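import Pool.Agent.H6.IvA.GermA
import Pool.Agent.H6.IvA.StepV
import Pool.Agent.H6.IvA.Deriv
import Pool.Agent.H6.IvA.ValK
import Pool.Agent.H6.IvA.NullA
import Pool.Agent.H6.Ivrii.Core

set_option autoImplicit false

namespace Pool.Agent.H6.IvA

open ComplexConjugate MeasureTheory Filter
open Pool.Agent.H6.Ivrii (GK gm gm_eq algebraMap_gm)

/-- an orbit with reflections on the arcs `L` (last one first) -/
def AO : List (ℝ → ℂ) → ℂ → ℂ → ℝ → ℂ → ℂ → Prop
  | [], P0, V0, T, P, V => P = P0 ∧ V = V0 ∧ T = 0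
  | γ :: L, P0, V0, T, P, V => ∃ (T' t : ℝ) (Q W : ℂ), AO L P0 V0 T' Q W ∧
      P = Q + t * W ∧ T = T' + t ∧ ∃ s ∈ Set.Ioo (0 : ℝ) 1, P = γ s ∧
        V = deriv γ s / conj (deriv γ s) * conj W

/-- a smooth regular algebraic arc avoiding the circular points -/
def Good (γ : ℝ → ℂ) : Prop :=
  Differentiable ℝ γ ∧ (∀ s ∈ Set.Ioo (0 : ℝ) 1, deriv γ s ≠ 0) ∧
    ∃ F : MvPolynomial (Fin 2) ℂ, IsoFree F ∧
      ∀ s ∈ Set.Ioo (0 : ℝ) 1, MvPolynomial.eval ![γ s, conj (γ s)] F = 0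

theorem ev_gm {Ω : Type} (U : Ultrafilter Ω) (f g : Ω → ℂ) (F : MvPolynomial (Fin 2) ℂ) :
    ev F (gm U f) (gm U g) = gm U (fun x => MvPolynomial.eval ![f x, g x] F) :=
  Pool.Agent.H6.Ivrii.aeval_gm U f g F

/-- the state of a family of points and directions -/
noncomputable def st {Ω : Type} (U : Ultrafilter Ω) (P V : Ω → ℂ) : GK U × GK U × GK U :=
  (gm U P, gm U (fun x => conj (P x)), gm U V)

theorem path_of_AO {Ω : Type} (U : Ultrafilter Ω) {Γ : Type}
    [LinearOrderedCommGroupWithZero Γ] (val : Valuation (GK U) Γ)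
    (hval : ∀ c : ℂ, c ≠ 0 → val (algebraMap ℂ (GK U) c) = 1)
    (L : List (ℝ → ℂ)) (hL : ∀ γ ∈ L, Good γ) (P0 V0 : Ω → ℂ)
    (hs0 : Plus val (st U P0 V0)) :
    ∀ (T : Ω → ℝ) (P V : Ω → ℂ),
      (∀ᶠ x in (U : Filter Ω), ‖V0 x‖ = 1 ∧ AO L (P0 x) (V0 x) (T x) (P x) (V x)) →
      (∀ᶠ x in (U : Filter Ω), ‖V x‖ = 1) ∧ val (gm U (fun x => (T x : ℂ))) < 1 ∧
      (Plus val (st U P V) ∨ Minus val (st U P V)) ∧
      ∀ D : Derivation ℂ (GK U) (GK U), 2 * D (gm U (fun x => (T x : ℂ))) =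
        (gm U V * D (gm U (fun x => conj (P x))) + (gm U V)⁻¹ * D (gm U P)) -
        (gm U V0 * D (gm U (fun x => conj (P0 x))) + (gm U V0)⁻¹ * D (gm U P0)) := by
  have two_ne : (2 : GK U) ≠ 0 := by
    have : (2 : GK U) = algebraMap ℂ (GK U) 2 := by rw [map_ofNat]
    rw [this, ne_eq, map_eq_zero]
    norm_num
  induction L with
  | nil =>
    intro T P V h
    have hP : gm U P = gm U P0 := (gm_eq U).mpr (h.mono fun x hx => hx.2.1)
    have hPc : gm U (fun x => conj (P x)) = gm U (fun x => conj (P0 x)) :=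
      (gm_eq U).mpr (h.mono fun x hx => by rw [hx.2.1])
    have hV : gm U V = gm U V0 := (gm_eq U).mpr (h.mono fun x hx => hx.2.2.1)
    have hT : gm U (fun x => (T x : ℂ)) = 0 :=
      (gm_eq U (g := fun _ => 0)).mpr (h.mono fun x hx => by rw [hx.2.2.2]; simp)
    refine ⟨h.mono fun x hx => by rw [hx.2.2.1]; exact hx.1, ?_, Or.inl ?_, ?_⟩
    · rw [hT, map_zero]
      exact zero_lt_one
    · simp only [st, hP, hPc, hV]
      exact hs0
    · intro D
      rw [hT, hP, hPc, hV]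
      simp
  | cons γ L ih =>
    intro T P V h
    obtain ⟨hd, hreg, F, hF, hon⟩ := hL γ (by simp)
    have hch : ∀ x : Ω, ∃ (T' t : ℝ) (Q W : ℂ),
        (‖V0 x‖ = 1 ∧ AO (γ :: L) (P0 x) (V0 x) (T x) (P x) (V x)) →
        (AO L (P0 x) (V0 x) T' Q W ∧ P x = Q + t * W ∧ T x = T' + t ∧
          ∃ s ∈ Set.Ioo (0 : ℝ) 1, P x = γ s ∧
            V x = deriv γ s / conj (deriv γ s) * conj W) := by
      intro x
      by_cases hx : ‖V0 x‖ = 1 ∧ AO (γ :: L) (P0 x) (V0 x) (T x) (P x) (V x)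
      · obtain ⟨T', t, Q, W, h'⟩ := hx.2
        exact ⟨T', t, Q, W, fun _ => h'⟩
      · exact ⟨0, 0, 0, 0, fun h' => absurd h' hx⟩
    choose T' t Q W hch using hch
    obtain ⟨hWn, hvT', hst, hD⟩ := ih (fun γ' hγ' => hL γ' (List.mem_cons_of_mem _ hγ')) T' Q W
      (h.mono fun x hx => ⟨hx.1, (hch x hx).1⟩)
    have hWc : (gm U W)⁻¹ = gm U (fun x => conj (W x)) := by
      apply inv_eq_of_mul_eq_one_right
      have : gm U W * gm U (fun x => conj (W x)) = gm U (fun x => W x * conj (W x)) := rfl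
      rw [this]
      refine (gm_eq U (g := fun _ => 1)).mpr (hWn.mono fun x hx => ?_)
      rw [Complex.mul_conj, Complex.normSq_eq_norm_sq, hx]
      simp
    have hξ : gm U P = gm U Q + gm U (fun x => (t x : ℂ)) * gm U W :=
      (gm_eq U (g := fun x => Q x + t x * W x)).mpr (h.mono fun x hx => (hch x hx).2.1)
    have hη : gm U (fun x => conj (P x)) = gm U (fun x => conj (Q x)) +
        gm U (fun x => (t x : ℂ)) * (gm U W)⁻¹ := by
      rw [hWc]
      refine (gm_eq U (g := fun x => conj (Q x) + t x * conj (W x))).mpr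
        (h.mono fun x hx => ?_)
      rw [(hch x hx).2.1]
      simp
    have hT : gm U (fun x => (T x : ℂ)) = gm U (fun x => (T' x : ℂ)) +
        gm U (fun x => (t x : ℂ)) :=
      (gm_eq U (g := fun x => (T' x : ℂ) + (t x : ℂ))).mpr (h.mono fun x hx => by
        rw [(hch x hx).2.2.1]; push_cast; ring)
    have hFon : ev F (gm U P) (gm U (fun x => conj (P x))) = 0 := by
      rw [ev_gm]
      refine (gm_eq U (g := fun _ => 0)).mpr (h.mono fun x hx => ?_)
      obtain ⟨s, hs, hPs, -⟩ := (hch x hx).2.2.2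
      rw [hPs]
      exact hon s hs
    obtain ⟨G0, hG0i, hG0d, hG0⟩ := exists_irr_factor hF.1 hFon
    have hG0iso := hF.of_dvd hG0d
    have htr : Tr val (gm U (fun x => conj (P x))) := by
      rcases hst with hp | hm
      · exact (pos_plus val hval hG0i hG0iso hp.1 hp.2.1 hp.2.2 hξ hη hG0).2.2.2.2
      · exact (pos_minus val hval hG0i hG0iso hm.1 hm.2.1 hm.2.2.1 hm.2.2.2 hξ hη hG0).2.2.2.2
    have hnc : ∀ c : ℂ, gm U (fun x => conj (P x)) ≠ algebraMap ℂ (GK U) c := by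
      intro c hc
      have h1 := htr (Polynomial.X - Polynomial.C c) (Polynomial.X_sub_C_ne_zero c)
      rw [hc] at h1
      simp at h1
    obtain ⟨G, hGi, hGiso, hG0', hGr⟩ := germ_arc U γ hd hreg F hF hon P W V
      ((h.and hWn).mono fun x hx => ⟨hx.2, (hch x hx.1).2.2.2⟩) hnc
    have hv0 : (st U Q W).2.2 ≠ 0 := by
      rcases hst with hp | hm
      · intro h0
        have h1 := hp.1
        rw [h0, map_zero] at h1
        exact absurd h1 (by simp)
      · exact hm.1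
    have hB : Bounce G (st U Q W) (gm U (fun x => (t x : ℂ))) (st U P V) :=
      ⟨hGi, hGiso, hv0, hξ, hη, hG0', hGr⟩
    have hstep : val (gm U (fun x => (t x : ℂ))) < 1 ∧
        (Plus val (st U P V) ∨ Minus val (st U P V)) ∧
        ev (MvPolynomial.pderiv 0 G) (st U P V).1 (st U P V).2.1 ≠ 0 := by
      rcases hst with hp | hm
      · obtain ⟨a, b, c⟩ := step_plus val hval hp hB
        exact ⟨a, Or.inr b, c⟩
      · obtain ⟨a, b, c⟩ := step_minus val hval hm hB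
        exact ⟨a, Or.inl b, c⟩
    obtain ⟨hvt, hst', hreg'⟩ := hstep
    have hv0' : (st U P V).2.2 ≠ 0 := by
      rcases hst' with hp | hm
      · intro h0
        have h1 := hp.1
        rw [h0, map_zero] at h1
        exact absurd h1 (by simp)
      · exact hm.1
    refine ⟨?_, ?_, hst', ?_⟩
    · refine (h.and hWn).mono fun x hx => ?_
      obtain ⟨s, hs, -, hV⟩ := (hch x hx.1).2.2.2
      have h1 := hreg s hs
      rw [hV, norm_mul, norm_div, RCLike.norm_conj, RCLike.norm_conj, hx.2,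
        div_self (norm_ne_zero_iff.mpr h1), one_mul]
    · rw [hT]
      exact Valuation.map_add_lt val hvT' hvt
    · intro D
      have h1 := bounce_deriv D hB hv0' hreg'
      have h2 := hD D
      rw [hT, map_add, mul_add, h1, h2]
      simp only [st]
      ring

theorem coreA (γ : ℝ → ℂ) (hγ : Continuous γ) (hinj : Set.InjOn γ (Set.Ioo (0 : ℝ) 1))
    (hgood : Good γ) (L : List (ℝ → ℂ)) (hL : ∀ γ ∈ L, Good γ) :
    volume {x : ℝ × ℝ | x.1 ∈ Set.Ioo (0 : ℝ) 1 ∧ ∃ T : ℝ, 0 < T ∧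
      AO L (γ x.1) (Complex.exp (x.2 * Complex.I)) T (γ x.1)
        (Complex.exp (x.2 * Complex.I))} = 0 := by
  by_contra hne
  set S : Set (ℝ × ℝ) := {x : ℝ × ℝ | x.1 ∈ Set.Ioo (0 : ℝ) 1 ∧ ∃ T : ℝ, 0 < T ∧
      AO L (γ x.1) (Complex.exp (x.2 * Complex.I)) T (γ x.1)
        (Complex.exp (x.2 * Complex.I))} with hS
  have hbot : NeBot (ae (volume : Measure (ℝ × ℝ)) ⊓ 𝓟 S) :=
    frequently_mem_iff_neBot.mp (frequently_ae_mem_iff.mpr hne)
  set U : Ultrafilter (ℝ × ℝ) := Ultrafilter.of (ae (volume : Measure (ℝ × ℝ)) ⊓ 𝓟 S) with hU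
  have hUle : (U : Filter (ℝ × ℝ)) ≤ ae volume ⊓ 𝓟 S := Ultrafilter.of_le _
  have hUS : ∀ᶠ x in (U : Filter (ℝ × ℝ)), x ∈ S :=
    hUle.trans inf_le_right (mem_principal_self S)
  set P0 : ℝ × ℝ → ℂ := fun x => γ x.1 with hP0
  set V0 : ℝ × ℝ → ℂ := fun x => Complex.exp (x.2 * Complex.I) with hV0
  have hV0n : ∀ x, ‖V0 x‖ = 1 := fun x => Complex.norm_exp_ofReal_mul_I x.2
  have hgen : AlgebraicIndependent ℂ ![gm U (fun x => conj (P0 x)), gm U V0] := by
    change Function.Injective (MvPolynomial.aeval ![gm U (fun x => conj (P0 x)), gm U V0])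
    rw [injective_iff_map_eq_zero]
    intro F hF
    by_contra hF0
    rw [Pool.Agent.H6.Ivrii.aeval_gm] at hF
    have hall := (gm_eq U (g := fun _ => 0)).mp hF
    have h1 := null_zeroA γ hγ hinj F hF0
    have h2 : ∀ᶠ x in (U : Filter (ℝ × ℝ)), x ∉ {x : ℝ × ℝ | x.1 ∈ Set.Ioo (0 : ℝ) 1 ∧
        MvPolynomial.eval ![conj (γ x.1), Complex.exp (x.2 * Complex.I)] F = 0} :=
      hUle.trans inf_le_left (measure_eq_zero_iff_ae_notMem.mp h1)
    obtain ⟨x, hx1, hx2, hx3⟩ := (hall.and (h2.and hUS)).exists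
    exact hx2 ⟨hx3.1, hx1⟩
  obtain ⟨Γ, _, val, hval, htr, hv⟩ := exists_valK _ _ hgen
  obtain ⟨hd, hreg, F, hF, hon⟩ := hgood
  have hFon : ev F (gm U P0) (gm U (fun x => conj (P0 x))) = 0 := by
    rw [ev_gm]
    exact (gm_eq U (g := fun _ => 0)).mpr (hUS.mono fun x hx => hon x.1 hx.1)
  obtain ⟨G0, hG0i, hG0d, hG0⟩ := exists_irr_factor hF.1 hFon
  have hη1 : val (gm U (fun x => conj (P0 x))) = 1 := by
    have := htr Polynomial.X Polynomial.X_ne_zero
    simpa using this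
  have hξ1 : val (gm U P0) ≤ 1 := by
    have := (IsoFree.val_le val hval (hF.of_dvd hG0d) hG0i hG0).1
    rwa [hη1, max_self] at this
  have hs0 : Plus val (st U P0 V0) := ⟨hv, hξ1, htr⟩
  have hch : ∀ x : ℝ × ℝ, ∃ T : ℝ, x ∈ S → (0 < T ∧ AO L (P0 x) (V0 x) T (P0 x) (V0 x)) := by
    intro x
    by_cases hx : x ∈ S
    · obtain ⟨-, T, hT, hAO⟩ := hx
      exact ⟨T, fun _ => ⟨hT, hAO⟩⟩
    · exact ⟨0, fun h => absurd h hx⟩
  choose T hT using hch
  obtain ⟨-, hvT, -, hD⟩ := path_of_AO U val hval L hL P0 V0 hs0 T P0 V0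
    (hUS.mono fun x hx => ⟨hV0n x, (hT x hx).2⟩)
  have two_ne : (2 : GK U) ≠ 0 := by
    have : (2 : GK U) = algebraMap ℂ (GK U) 2 := by rw [map_ofNat]
    rw [this, ne_eq, map_eq_zero]
    norm_num
  have hD0 : ∀ D : Derivation ℂ (GK U) (GK U), D (gm U (fun x => (T x : ℂ))) = 0 := by
    intro D
    have h1 := hD D
    rw [sub_self] at h1
    exact (mul_eq_zero.mp h1).resolve_left two_ne
  have halg : IsAlgebraic ℂ (gm U (fun x => (T x : ℂ))) := by
    by_contra h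
    obtain ⟨D, hDne⟩ := exists_derivation _ h
    exact hDne (hD0 D)
  obtain ⟨c, hc⟩ : ∃ c : ℂ, algebraMap ℂ (GK U) c = gm U (fun x => (T x : ℂ)) := by
    have h1 := IsAlgClosed.degree_eq_one_of_irreducible ℂ (minpoly.irreducible halg.isIntegral)
    exact minpoly.mem_range_of_degree_eq_one ℂ _ h1
  rw [← hc] at hvT
  rcases eq_or_ne c 0 with rfl | hc0
  · rw [algebraMap_gm, gm_eq] at hc
    obtain ⟨x, hx1, hx2⟩ := (hc.and hUS).exists
    have h1 := (hT x hx2).1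
    have h2 : T x = 0 := by exact_mod_cast hx1.symm
    linarith
  · rw [hval c hc0] at hvT
    exact lt_irrefl _ hvT

end Pool.Agent.H6.IvA
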