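import Mathlib

/-!
Ivrii's conjecture for algebraic arcs avoiding the circular points (MP_ac23f1_an): algebraic definitions.
Coordinates `ξ = x + i y` (variable 0), `η = x - i y` (variable 1).
-/

set_option autoImplicit false

namespace Pool.Agent.H6.IvA

open Polynomial

/-- the curve `G = 0` does not pass through the circular points at infinity:
the top form of `G` contains `ξ ^ d` and `η ^ d` -/
def IsoFree (G : MvPolynomial (Fin 2) ℂ) : Prop :=
  G ≠ 0 ∧ (MvPolynomial.aeval ![(X : ℂ[X]), 0] G).natDegree = G.totalDegree ∧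
    (MvPolynomial.aeval ![0, (X : ℂ[X])] G).natDegree = G.totalDegree

section field

variable {K : Type} [Field K] [Algebra ℂ K]

/-- value of a polynomial at a point -/
noncomputable def ev (G : MvPolynomial (Fin 2) ℂ) (ξ η : K) : K := MvPolynomial.aeval ![ξ, η] G

/-- one flight of length `f` from `(ξ, η)` in direction `v` to a point `(ξ', η')` of `G = 0` and reflection there -/
structure Bounce (G : MvPolynomial (Fin 2) ℂ) (s : K × K × K) (f : K) (s' : K × K × K) :
    Prop where
  irr : Irreducible G
  iso : IsoFree G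
  v0 : s.2.2 ≠ 0
  xi : s'.1 = s.1 + f * s.2.2
  eta : s'.2.1 = s.2.1 + f * s.2.2⁻¹
  on : ev G s'.1 s'.2.1 = 0
  refl : s.2.2 * s'.2.2 * ev (MvPolynomial.pderiv 0 G) s'.1 s'.2.1 =
    -ev (MvPolynomial.pderiv 1 G) s'.1 s'.2.1

/-- a sequence of bounces of total length `T` (last one first) -/
def Path : List (MvPolynomial (Fin 2) ℂ) → K × K × K → K → K × K × K → Prop
  | [], s0, T, s => s = s0 ∧ T = 0
  | G :: L, s0, T, s => ∃ (s' : K × K × K) (T' f : K), Path L s0 T' s' ∧ Bounce G s' f s ∧ T = T' + f

variable {Γ : Type} [LinearOrderedCommGroupWithZero Γ]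

/-- `z` has transcendental residue -/
def Tr (val : Valuation K Γ) (z : K) : Prop := ∀ p : ℂ[X], p ≠ 0 → val (aeval z p) = 1

end field

end Pool.Agent.H6.IvA
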