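import Pool.Agent.H6.IvA.Iso

/-!
JOB AV-2. Elimination. `G` irreducible in `ℂ[ξ, η]` (of positive degree in `ξ` by `IsoFree`), `G ∤ H`: view them in `ℂ[η][ξ]` (Gauss lemma: `G` stays irreducible
over `ℂ(η)`, primitive), so `G` and `H` are coprime in `ℂ(η)[ξ]`; clear denominators: `A G + B H = c(η)`, `c ≠ 0`. Same with the variables exchanged.
(`MvPolynomial.finSuccEquiv` / `MvPolynomial.isEmpty..`, `Polynomial.IsPrimitive.irreducible_iff_irreducible_map_fraction_map`.)
Consequences at a valuation trivial on `ℂ`: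
* `tr_other`: if `ξ` had algebraic residue then `val (ξ - c) < 1` for some `c : ℂ` (split `p`), so `val (G(c, η)) < 1` (difference `G(ξ,η) - G(c,η)` is divisible by `ξ - c`), hence `G(c, Y) = 0`, `ξ - c ∣ G`, `G` associated to
  `ξ - c`, but then `G(0, t)` has degree `0 ≠ 1`: contradiction with `IsoFree`.
* `val_unit`: `B(ξ,η) H(ξ,η) = c(η)` has value 1, all factors have value ≤ 1.
* `not_dvd_pderiv`: `pderiv` has smaller total degree and is not zero (`ξ ^ d`, `η ^ d` occur in `G`, characteristic 0).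
-/

set_option autoImplicit false

namespace Pool.Agent.H6.IvA

open Polynomial

/-- the isomorphism `ℂ[ξ, η] ≃ ℂ[η][ξ]` -/
noncomputable def elE : MvPolynomial (Fin 2) ℂ ≃ₐ[ℂ] ℂ[X][X] :=
  (MvPolynomial.finSuccEquiv ℂ 1).trans
    (Polynomial.mapAlgEquiv (MvPolynomial.uniqueAlgEquiv ℂ (Fin 1)))

theorem elE_X0 : elE (MvPolynomial.X 0) = X := by
  simp [elE, MvPolynomial.finSuccEquiv_X_zero]

theorem elE_X1 : elE (MvPolynomial.X 1) = C X := by
  have h : (1 : Fin 2) = Fin.succ (0 : Fin 1) := rfl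
  simp only [elE, AlgEquiv.trans_apply]
  rw [h, MvPolynomial.finSuccEquiv_X_succ]
  simp

theorem elE_C (a : ℂ) : elE (MvPolynomial.C a) = C (C a) := by
  have := elE.commutes a
  rw [MvPolynomial.algebraMap_eq] at this
  rw [this]
  rfl

theorem elE_eval {B : Type} [CommRing B] [Algebra ℂ B] (u v : B)
    (P : MvPolynomial (Fin 2) ℂ) :
    MvPolynomial.aeval ![u, v] P = eval₂ (aeval v : ℂ[X] →ₐ[ℂ] B).toRingHom u (elE P) := by
  induction P using MvPolynomial.induction_on with
  | C a => rw [elE_C]; simp [MvPolynomial.algebraMap_eq]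
  | add p q hp hq => rw [map_add, hp, hq, map_add, eval₂_add]
  | mul_X p i hp =>
    rw [map_mul, hp, map_mul, eval₂_mul]
    congr 1
    fin_cases i
    · simp [elE_X0]
    · simp [elE_X1]

theorem elE_symm_C (c : ℂ[X]) :
    elE.symm (C c) = aeval (MvPolynomial.X 1 : MvPolynomial (Fin 2) ℂ) c := by
  rw [AlgEquiv.symm_apply_eq, ← Polynomial.aeval_algHom_apply, elE_X1]
  have : (aeval (C X : ℂ[X][X]) c) = C c := by
    induction c using Polynomial.induction_on with
    | C a => simp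
    | add p q hp hq => rw [map_add, hp, hq, map_add]
    | monomial n a h =>
      simp [Polynomial.algebraMap_eq]
  exact this.symm

theorem el_core' {F : Type} [Field F] [Algebra ℂ[X] F] [IsFractionRing ℂ[X] F] {g h : ℂ[X][X]}
    (hirr : Irreducible g) (hdeg : g.natDegree ≠ 0) (hgh : ¬ g ∣ h) :
    ∃ (a b : ℂ[X][X]) (c : ℂ[X]), c ≠ 0 ∧ a * g + b * h = C c := by
  have hprim : g.IsPrimitive := hirr.isPrimitive hdeg
  have h1 : Irreducible (g.map (algebraMap ℂ[X] F)) :=
    hprim.irreducible_iff_irreducible_map_fraction_map.1 hirr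
  have h2 : ¬ g.map (algebraMap ℂ[X] F) ∣ h.map (algebraMap ℂ[X] F) := by
    intro hd
    exact hgh (hprim.dvd_of_fraction_map_dvd_fraction_map hd)
  have h3 : IsCoprime (g.map (algebraMap ℂ[X] F)) (h.map (algebraMap ℂ[X] F)) :=
    (h1.coprime_iff_not_dvd).2 h2
  obtain ⟨a, b, hab⟩ := h3
  obtain ⟨c, hc0, hc⟩ := IsLocalization.integerNormalization_spec (nonZeroDivisors ℂ[X]) a
  obtain ⟨d, hd0, hd⟩ := IsLocalization.integerNormalization_spec (nonZeroDivisors ℂ[X]) b
  rw [mem_nonZeroDivisors_iff_ne_zero] at hc0 hd0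
  refine ⟨C d * IsLocalization.integerNormalization (nonZeroDivisors ℂ[X]) a,
    C c * IsLocalization.integerNormalization (nonZeroDivisors ℂ[X]) b, c * d,
    mul_ne_zero hc0 hd0, ?_⟩
  apply map_injective (algebraMap ℂ[X] F) (IsFractionRing.injective _ _)
  rw [Algebra.smul_def, Polynomial.algebraMap_apply] at hc hd
  simp only [Polynomial.map_add, Polynomial.map_mul, hc, hd, map_C, map_mul]
  linear_combination (C ((algebraMap ℂ[X] F) c) * C ((algebraMap ℂ[X] F) d)) * hab

theorem el_core {g h : ℂ[X][X]} (hirr : Irreducible g) (hdeg : g.natDegree ≠ 0) (hgh : ¬ g ∣ h) :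
    ∃ (a b : ℂ[X][X]) (c : ℂ[X]), c ≠ 0 ∧ a * g + b * h = C c :=
  el_core' (F := FractionRing ℂ[X]) hirr hdeg hgh


theorem totalDegree_ne_zero_of_irr {G : MvPolynomial (Fin 2) ℂ} (hirr : Irreducible G) :
    G.totalDegree ≠ 0 := by
  intro h
  rw [MvPolynomial.totalDegree_eq_zero_iff_eq_C] at h
  have h0 : MvPolynomial.coeff 0 G ≠ 0 := by
    intro h0
    rw [h0, map_zero] at h
    exact hirr.ne_zero h
  apply hirr.not_isUnit
  rw [h]
  exact (isUnit_iff_ne_zero.2 h0).map MvPolynomial.C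

theorem natDegree_elE {G : MvPolynomial (Fin 2) ℂ} (hirr : Irreducible G) (hiso : IsoFree G) :
    (elE G).natDegree ≠ 0 := by
  intro h
  apply totalDegree_ne_zero_of_irr hirr
  rw [← hiso.2.1, elE_eval, eq_C_of_natDegree_eq_zero h, eval₂_C]
  have : (aeval (0 : ℂ[X]) : ℂ[X] →ₐ[ℂ] ℂ[X]).toRingHom ((elE G).coeff 0) =
      C (((elE G).coeff 0).coeff 0) := by
    change aeval (0 : ℂ[X]) ((elE G).coeff 0) = _
    have e := Polynomial.aeval_algebraMap_apply ℂ[X] (0 : ℂ) ((elE G).coeff 0)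
    rw [map_zero] at e
    rw [e, ← coeff_zero_eq_aeval_zero]
    rfl
  rw [this, natDegree_C]

/-- exchange of the variables -/
noncomputable def sw : MvPolynomial (Fin 2) ℂ ≃ₐ[ℂ] MvPolynomial (Fin 2) ℂ :=
  MvPolynomial.renameEquiv ℂ (Equiv.swap (0 : Fin 2) 1)

theorem sw_eq (P : MvPolynomial (Fin 2) ℂ) :
    sw P = MvPolynomial.rename (Equiv.swap (0 : Fin 2) 1) P := rfl

theorem sw_X0 : sw (MvPolynomial.X 0) = MvPolynomial.X 1 := by
  simp [sw_eq]

theorem sw_X1 : sw (MvPolynomial.X 1) = MvPolynomial.X 0 := by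
  simp [sw_eq]

theorem sw_sw (P : MvPolynomial (Fin 2) ℂ) : sw (sw P) = P := by
  rw [sw_eq, sw_eq, MvPolynomial.rename_rename]
  have : (⇑(Equiv.swap (0 : Fin 2) 1) ∘ ⇑(Equiv.swap (0 : Fin 2) 1)) = id := by
    funext i
    simp
  rw [this, MvPolynomial.rename_id_apply]

theorem sw_aeval {B : Type} [CommRing B] [Algebra ℂ B] (u v : B) (P : MvPolynomial (Fin 2) ℂ) :
    MvPolynomial.aeval ![u, v] (sw P) = MvPolynomial.aeval ![v, u] P := by
  rw [sw_eq, MvPolynomial.aeval_rename]
  congr 2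
  funext i
  fin_cases i <;> simp

theorem sw_irr {G : MvPolynomial (Fin 2) ℂ} (hirr : Irreducible G) : Irreducible (sw G) :=
  (MulEquiv.irreducible_iff sw).2 hirr

theorem sw_iso {G : MvPolynomial (Fin 2) ℂ} (hiso : IsoFree G) : IsoFree (sw G) := by
  have hd : (sw G).totalDegree = G.totalDegree :=
    MvPolynomial.totalDegree_renameEquiv (Equiv.swap (0 : Fin 2) 1) G
  refine ⟨?_, ?_, ?_⟩
  · rw [Ne, EmbeddingLike.map_eq_zero_iff]
    exact hiso.1
  · rw [sw_aeval, hd]
    exact hiso.2.2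
  · rw [sw_aeval, hd]
    exact hiso.2.1

theorem sw_dvd {G H : MvPolynomial (Fin 2) ℂ} : sw G ∣ sw H ↔ G ∣ H := by
  constructor
  · intro h
    have := map_dvd sw h
    rwa [sw_sw, sw_sw] at this
  · exact fun h => map_dvd sw h

theorem elE_pderiv (P : MvPolynomial (Fin 2) ℂ) :
    elE (MvPolynomial.pderiv 0 P) = derivative (elE P) := by
  induction P using MvPolynomial.induction_on with
  | C a => simp [elE_C]
  | add p q hp hq => rw [map_add, map_add, hp, hq, map_add, derivative_add]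
  | mul_X p i hp =>
    have h : elE (MvPolynomial.pderiv 0 (MvPolynomial.X i)) =
        derivative (elE (MvPolynomial.X i)) := by
      fin_cases i
      · simp [elE_X0, MvPolynomial.pderiv_X]
      · simp [elE_X1, MvPolynomial.pderiv_X]
    rw [MvPolynomial.pderiv_mul, map_add, map_mul, map_mul, hp, map_mul, derivative_mul, h]

theorem elim_one {G H : MvPolynomial (Fin 2) ℂ} (hirr : Irreducible G) (hiso : IsoFree G)
    (hH : ¬ G ∣ H) : ∃ (A B : MvPolynomial (Fin 2) ℂ) (c : ℂ[X]), c ≠ 0 ∧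
      A * G + B * H = aeval (MvPolynomial.X 1 : MvPolynomial (Fin 2) ℂ) c := by
  have hirr' : Irreducible (elE G) := (MulEquiv.irreducible_iff elE).2 hirr
  have hn : ¬ elE G ∣ elE H := by
    intro h
    apply hH
    have := map_dvd elE.symm h
    simpa using this
  obtain ⟨a, b, c, hc, h⟩ := el_core hirr' (natDegree_elE hirr hiso) hn
  refine ⟨elE.symm a, elE.symm b, c, hc, ?_⟩
  rw [← elE_symm_C, ← h, map_add, map_mul, map_mul]
  simp

theorem elim_zero {G H : MvPolynomial (Fin 2) ℂ} (hirr : Irreducible G) (hiso : IsoFree G)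
    (hH : ¬ G ∣ H) : ∃ (A B : MvPolynomial (Fin 2) ℂ) (c : ℂ[X]), c ≠ 0 ∧
      A * G + B * H = aeval (MvPolynomial.X 0 : MvPolynomial (Fin 2) ℂ) c := by
  obtain ⟨A, B, c, hc, h⟩ := elim_one (sw_irr hirr) (sw_iso hiso) (fun h => hH (sw_dvd.1 h))
  refine ⟨sw A, sw B, c, hc, ?_⟩
  have h' := congrArg sw h
  rw [map_add, map_mul, map_mul, sw_sw, sw_sw] at h'
  rw [h', ← Polynomial.aeval_algHom_apply, sw_X1]

theorem not_dvd_pderiv_zero {G : MvPolynomial (Fin 2) ℂ} (hirr : Irreducible G)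
    (hiso : IsoFree G) : ¬ G ∣ MvPolynomial.pderiv 0 G := by
  intro h
  have h1 := map_dvd elE h
  rw [elE_pderiv] at h1
  have hd := natDegree_elE hirr hiso
  have h2 : derivative (elE G) ≠ 0 := by
    intro h0
    exact hd (derivative_eq_zero.1 h0)
  have h3 := natDegree_le_of_dvd h1 h2
  have h4 := natDegree_derivative_lt hd
  omega

theorem not_dvd_pderiv {G : MvPolynomial (Fin 2) ℂ} (hirr : Irreducible G) (hiso : IsoFree G)
    (i : Fin 2) : ¬ G ∣ MvPolynomial.pderiv i G := by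
  fin_cases i
  · exact not_dvd_pderiv_zero hirr hiso
  · intro h
    apply not_dvd_pderiv_zero (sw_irr hirr) (sw_iso hiso)
    have h1 := map_dvd sw h
    have h2 : sw (MvPolynomial.pderiv 1 G) = MvPolynomial.pderiv 0 (sw G) := by
      rw [sw_eq, sw_eq]
      have := MvPolynomial.pderiv_rename (Equiv.swap (0 : Fin 2) 1).injective (1 : Fin 2) G
      rw [Equiv.swap_apply_right] at this
      exact this.symm
    rw [← h2]
    exact h1

theorem iso_no_line {G : MvPolynomial (Fin 2) ℂ} (hirr : Irreducible G) (hiso : IsoFree G)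
    (c : ℂ) : MvPolynomial.aeval ![(X : ℂ[X]), C c] G ≠ 0 := by
  intro h0
  have h1 : ∀ P : MvPolynomial (Fin 2) ℂ, (MvPolynomial.X 1 - MvPolynomial.C c) ∣
      P - MvPolynomial.aeval ![(MvPolynomial.X 0 : MvPolynomial (Fin 2) ℂ), MvPolynomial.C c] P := by
    intro P
    induction P using MvPolynomial.induction_on with
    | C a => simp [MvPolynomial.algebraMap_eq]
    | add p q hp hq =>
      rw [map_add]
      have := dvd_add hp hq
      have e : p - MvPolynomial.aeval ![(MvPolynomial.X 0 : MvPolynomial (Fin 2) ℂ), MvPolynomial.C c] p +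
        (q - MvPolynomial.aeval ![(MvPolynomial.X 0 : MvPolynomial (Fin 2) ℂ), MvPolynomial.C c] q) =
        p + q - (MvPolynomial.aeval ![(MvPolynomial.X 0 : MvPolynomial (Fin 2) ℂ), MvPolynomial.C c] p +
        MvPolynomial.aeval ![(MvPolynomial.X 0 : MvPolynomial (Fin 2) ℂ), MvPolynomial.C c] q) := by ring
      rwa [e] at this
    | mul_X p i hp =>
      rw [map_mul]
      fin_cases i
      · simp only [Fin.zero_eta, MvPolynomial.aeval_X, Matrix.cons_val_zero]
        rw [← sub_mul]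
        exact dvd_mul_of_dvd_left hp _
      · have hX : MvPolynomial.aeval ![(MvPolynomial.X 0 : MvPolynomial (Fin 2) ℂ), MvPolynomial.C c]
            (MvPolynomial.X ((fun i => i) ⟨1, by omega⟩ : Fin 2) : MvPolynomial (Fin 2) ℂ) = MvPolynomial.C c := by
          rw [MvPolynomial.aeval_X]; rfl
        rw [hX]
        have e : ∀ q : MvPolynomial (Fin 2) ℂ, p * MvPolynomial.X 1 - q * MvPolynomial.C c =
          (p - q) * MvPolynomial.C c + p * (MvPolynomial.X 1 - MvPolynomial.C c) := by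
          intro q; ring
        change _ ∣ p * MvPolynomial.X 1 - _
        rw [e]
        exact dvd_add (dvd_mul_of_dvd_left hp _) (dvd_mul_left _ _)
  have h2 : MvPolynomial.aeval ![(MvPolynomial.X 0 : MvPolynomial (Fin 2) ℂ), MvPolynomial.C c] G
      = 0 := by
    have : MvPolynomial.aeval ![(MvPolynomial.X 0 : MvPolynomial (Fin 2) ℂ), MvPolynomial.C c] G =
        aeval (MvPolynomial.X 0 : MvPolynomial (Fin 2) ℂ)
          (MvPolynomial.aeval ![(X : ℂ[X]), C c] G) := by
      rw [MvPolynomial.comp_aeval_apply]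
      congr 2
      funext i
      fin_cases i
      · simp
      · simp [MvPolynomial.algebraMap_eq]
    rw [this, h0, map_zero]
  obtain ⟨Q, hQ⟩ := h1 G
  rw [h2, sub_zero] at hQ
  rcases hirr.isUnit_or_isUnit hQ with hu | hu
  · have := hu.map (MvPolynomial.aeval ![(0 : ℂ), c] : MvPolynomial (Fin 2) ℂ →ₐ[ℂ] ℂ)
    simp at this
  · apply totalDegree_ne_zero_of_irr hirr
    rw [← hiso.2.1, hQ, map_mul]
    have h3 := hu.map (MvPolynomial.aeval ![(X : ℂ[X]), 0] : MvPolynomial (Fin 2) ℂ →ₐ[ℂ] ℂ[X])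
    have h4 := natDegree_eq_zero_of_isUnit h3
    have h5 : MvPolynomial.aeval ![(X : ℂ[X]), 0] (MvPolynomial.X 1 - MvPolynomial.C c) =
      C (-c) := by
      simp
    rw [h5]
    have h6 := natDegree_mul_le (p := C (-c))
      (q := MvPolynomial.aeval ![(X : ℂ[X]), 0] Q)
    rw [natDegree_C, h4] at h6
    omega

variable {K : Type} [Field K] [Algebra ℂ K] {Γ : Type} [LinearOrderedCommGroupWithZero Γ]

theorem val_alg_le (val : Valuation K Γ) (hval : ∀ c : ℂ, c ≠ 0 → val (algebraMap ℂ K c) = 1)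
    (c : ℂ) : val (algebraMap ℂ K c) ≤ 1 := by
  rcases eq_or_ne c 0 with rfl | hc
  · simp
  · exact (hval c hc).le

theorem val_ev_le (val : Valuation K Γ) (hval : ∀ c : ℂ, c ≠ 0 → val (algebraMap ℂ K c) = 1)
    (P : MvPolynomial (Fin 2) ℂ) {ξ η : K} (hξ : val ξ ≤ 1) (hη : val η ≤ 1) :
    val (ev P ξ η) ≤ 1 := by
  unfold ev
  induction P using MvPolynomial.induction_on with
  | C a =>
    rw [MvPolynomial.aeval_C]
    exact val_alg_le val hval a
  | add p q hp hq =>
    rw [map_add]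
    exact (val.map_add _ _).trans (max_le hp hq)
  | mul_X p i hp =>
    rw [map_mul, map_mul, MvPolynomial.aeval_X]
    fin_cases i
    · exact mul_le_one' hp hξ
    · exact mul_le_one' hp hη

theorem val_ev_sub (val : Valuation K Γ) (hval : ∀ c : ℂ, c ≠ 0 → val (algebraMap ℂ K c) = 1)
    (P : MvPolynomial (Fin 2) ℂ) {ξ η η' : K} (hξ : val ξ ≤ 1) (hη : val η ≤ 1)
    (hη' : val η' ≤ 1) : val (ev P ξ η - ev P ξ η') ≤ val (η - η') := by
  have hP := fun P => val_ev_le val hval P hξ hη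
  unfold ev at hP ⊢
  induction P using MvPolynomial.induction_on with
  | C a => simp
  | add p q hp hq =>
    rw [map_add, map_add, add_sub_add_comm]
    exact (val.map_add _ _).trans (max_le hp hq)
  | mul_X p i hp =>
    rw [map_mul, map_mul, MvPolynomial.aeval_X, MvPolynomial.aeval_X]
    fin_cases i
    · change val (MvPolynomial.aeval ![ξ, η] p * ξ - MvPolynomial.aeval ![ξ, η'] p * ξ) ≤ _
      rw [← sub_mul, map_mul]
      exact (mul_le_of_le_one_right' hξ).trans hp
    · change val (MvPolynomial.aeval ![ξ, η] p * η - MvPolynomial.aeval ![ξ, η'] p * η') ≤ _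
      have e : MvPolynomial.aeval ![ξ, η] p * η - MvPolynomial.aeval ![ξ, η'] p * η' =
        MvPolynomial.aeval ![ξ, η] p * (η - η') +
        (MvPolynomial.aeval ![ξ, η] p - MvPolynomial.aeval ![ξ, η'] p) * η' := by ring
      rw [e]
      refine (val.map_add _ _).trans (max_le ?_ ?_)
      · rw [map_mul]
        exact mul_le_of_le_one_left' (hP p)
      · rw [map_mul]
        exact (mul_le_of_le_one_right' hη').trans hp

theorem exists_close (val : Valuation K Γ)
    (hval : ∀ c : ℂ, c ≠ 0 → val (algebraMap ℂ K c) = 1) {η : K} (hη : val η ≤ 1) :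
    ∀ (n : ℕ) (p : ℂ[X]), p.natDegree = n → p ≠ 0 → val (aeval η p) < 1 →
      ∃ c : ℂ, val (η - algebraMap ℂ K c) < 1 := by
  intro n
  induction n with
  | zero =>
    intro p hp hp0 hlt
    rw [eq_C_of_natDegree_eq_zero hp] at hlt hp0
    rw [aeval_C, hval _ (by simpa using hp0)] at hlt
    exact absurd hlt (lt_irrefl _)
  | succ n ih =>
    intro p hp hp0 hlt
    have hdeg : p.degree ≠ 0 := by
      intro h
      rw [degree_eq_natDegree hp0, hp] at h
      exact absurd h (by exact_mod_cast Nat.succ_ne_zero n)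
    obtain ⟨c, hc⟩ := IsAlgClosed.exists_root p hdeg
    obtain ⟨q, hq⟩ := dvd_iff_isRoot.2 hc
    by_cases h1 : val (η - algebraMap ℂ K c) < 1
    · exact ⟨c, h1⟩
    · have h2 : val (η - algebraMap ℂ K c) = 1 := by
        refine le_antisymm ?_ (not_lt.1 h1)
        exact (val.map_sub _ _).trans (max_le hη (val_alg_le val hval c))
      have hq0 : q ≠ 0 := by
        rintro rfl
        exact hp0 (by rw [hq, mul_zero])
      refine ih q ?_ hq0 ?_
      · rw [hq, natDegree_mul (X_sub_C_ne_zero c) hq0, natDegree_X_sub_C] at hp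
        omega
      · rw [hq, map_mul, map_mul] at hlt
        simp only [map_sub, aeval_X, aeval_C] at hlt
        rwa [h2, one_mul] at hlt

theorem tr_other_mp (val : Valuation K Γ)
    (hval : ∀ c : ℂ, c ≠ 0 → val (algebraMap ℂ K c) = 1)
    {G : MvPolynomial (Fin 2) ℂ} (hirr : Irreducible G) (hiso : IsoFree G) {ξ η : K}
    (h : ev G ξ η = 0) (hξ : val ξ ≤ 1) (hη : val η ≤ 1) (htr : Tr val ξ) : Tr val η := by
  intro p hp
  by_contra hne
  have hle : val (aeval η p) ≤ 1 := by
    have := val_ev_le val hval (aeval (MvPolynomial.X 1 : MvPolynomial (Fin 2) ℂ) p) hξ hη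
    unfold ev at this
    rw [← Polynomial.aeval_algHom_apply, MvPolynomial.aeval_X] at this
    exact this
  obtain ⟨c, hc⟩ := exists_close val hval hη _ p rfl hp (lt_of_le_of_ne hle hne)
  have h1 := val_ev_sub val hval G hξ hη (val_alg_le val hval c)
  rw [h, zero_sub, Valuation.map_neg] at h1
  have h2 : ev G ξ (algebraMap ℂ K c) = aeval ξ (MvPolynomial.aeval ![(X : ℂ[X]), C c] G) := by
    unfold ev
    rw [MvPolynomial.comp_aeval_apply]
    congr 2
    funext i
    fin_cases i <;> simp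
  rw [h2, htr _ (iso_no_line hirr hiso c)] at h1
  exact absurd (lt_of_le_of_lt h1 hc) (lt_irrefl _)

theorem tr_other (val : Valuation K Γ) (hval : ∀ c : ℂ, c ≠ 0 → val (algebraMap ℂ K c) = 1)
    {G : MvPolynomial (Fin 2) ℂ} (hirr : Irreducible G) (hiso : IsoFree G) {ξ η : K}
    (h : ev G ξ η = 0) (hξ : val ξ ≤ 1) (hη : val η ≤ 1) : Tr val ξ ↔ Tr val η := by
  refine ⟨tr_other_mp val hval hirr hiso h hξ hη, ?_⟩
  have h' : ev (sw G) η ξ = 0 := by
    unfold ev at h ⊢
    rw [sw_aeval, h]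
  exact tr_other_mp val hval (sw_irr hirr) (sw_iso hiso) h' hη hξ

theorem val_unit (val : Valuation K Γ) (hval : ∀ c : ℂ, c ≠ 0 → val (algebraMap ℂ K c) = 1)
    {G H : MvPolynomial (Fin 2) ℂ} (hirr : Irreducible G) (hiso : IsoFree G) (hH : ¬ G ∣ H)
    {ξ η : K} (h : ev G ξ η = 0) (hξ : val ξ ≤ 1) (hη : val η ≤ 1) (htr : Tr val η) :
    val (ev H ξ η) = 1 := by
  obtain ⟨A, B, c, hc, hAB⟩ := elim_one hirr hiso hH
  have h1 := congrArg (fun P => ev P ξ η) hAB
  simp only [ev, map_add, map_mul] at h1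
  unfold ev at h
  rw [h, mul_zero, zero_add, ← Polynomial.aeval_algHom_apply, MvPolynomial.aeval_X] at h1
  have h2 := congrArg val h1
  have h3 : val (aeval (![ξ, η] 1) c) = 1 := htr c hc
  rw [h3, map_mul] at h2
  have hB := val_ev_le val hval B hξ hη
  have hHle := val_ev_le val hval H hξ hη
  refine le_antisymm hHle ?_
  rw [← h2]
  exact mul_le_of_le_one_left' hB

end Pool.Agent.H6.IvA
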