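import Pool.Agent.H6.Ivrii.GermK
import Pool.Agent.H6.IvA.Elim

/-!
JOB AV-7. The germ of a reflection point on an algebraic arc.
`F := toIso f` (polynomial in `ξ, η`), `F(P x, conj (P x)) = 0`, so `F(ξ, η) = 0` in the germ field; `F ≠ 0`, so some irreducible factor `G ∣ F` has `G(ξ, η) = 0` (a field has no zero divisors; induct on the factorisation).
Write `F = G ^ m * H`, `¬ G ∣ H`, `m ≥ 1`. `H(ξ, η) ≠ 0`: otherwise `elim_one` gives `c(η) = 0`, so `η` is algebraic over `ℂ`, `η ∈ ℂ`, against `hnc`.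
So for `U`-almost all `x`: `G(P x, conj P x) = 0 ≠ H(P x, conj P x)`. For such an `x`, with `P x = γ s`, `H ≠ 0` near `s` by continuity, and `G ^ m H = 0` on the whole arc near `s`, so
`G(γ s', conj γ s') = 0` for `s'` near `s`; differentiate at `s`: `G_ξ γ'(s) + G_η conj γ'(s) = 0`. With `V x = (γ'(s) / conj γ'(s)) * conj (W x)` and `W conj W = 1` this is
`W V G_ξ = - G_η`.
-/

set_option autoImplicit false

namespace Pool.Agent.H6.IvA

open ComplexConjugate Filter
open Pool.Agent.H6.Ivrii (GK gm)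

variable {Ω : Type} (U : Ultrafilter Ω)

private theorem germA_ev (F : MvPolynomial (Fin 2) ℂ) (P Q : Ω → ℂ) :
    ev F (gm U P) (gm U Q) = gm U (fun x => MvPolynomial.eval ![P x, Q x] F) := by
  induction F using MvPolynomial.induction_on with
  | C a =>
    unfold ev
    rw [MvPolynomial.aeval_C, Pool.Agent.H6.Ivrii.algebraMap_gm]
    simp
  | add p q hp hq =>
    unfold ev at hp hq ⊢
    rw [map_add, hp, hq, Pool.Agent.H6.Ivrii.gm_add]
    simp
  | mul_X p i hp =>
    unfold ev at hp ⊢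
    rw [map_mul, hp, MvPolynomial.aeval_X]
    fin_cases i
    · change _ * gm U P = _
      rw [Pool.Agent.H6.Ivrii.gm_mul]
      simp
    · change _ * gm U Q = _
      rw [Pool.Agent.H6.Ivrii.gm_mul]
      simp

private theorem germA_deriv (G : MvPolynomial (Fin 2) ℂ) {a b : ℝ → ℂ} {a' b' : ℂ} {s : ℝ}
    (ha : HasDerivAt a a' s) (hb : HasDerivAt b b' s) :
    HasDerivAt (fun t => MvPolynomial.eval ![a t, b t] G)
      (MvPolynomial.eval ![a s, b s] (MvPolynomial.pderiv 0 G) * a' +
        MvPolynomial.eval ![a s, b s] (MvPolynomial.pderiv 1 G) * b') s := by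
  induction G using MvPolynomial.induction_on with
  | C c =>
    have h := hasDerivAt_const s c
    simpa using h
  | add p q hp hq =>
    have h := hp.add hq
    simp only [map_add]
    refine h.congr_deriv ?_
    ring
  | mul_X p i hp =>
    fin_cases i
    · have h := hp.mul ha
      have e1 : (fun t => MvPolynomial.eval ![a t, b t] (p * MvPolynomial.X ((fun i => i) ⟨0, by omega⟩ : Fin 2))) =
          (fun t => MvPolynomial.eval ![a t, b t] p) * a := by
        funext t
        simp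
      rw [e1]
      refine h.congr_deriv ?_
      simp [MvPolynomial.pderiv_mul, MvPolynomial.pderiv_X]
      ring
    · have h := hp.mul hb
      have e1 : (fun t => MvPolynomial.eval ![a t, b t] (p * MvPolynomial.X ((fun i => i) ⟨1, by omega⟩ : Fin 2))) =
          (fun t => MvPolynomial.eval ![a t, b t] p) * b := by
        funext t
        simp
      rw [e1]
      refine h.congr_deriv ?_
      simp [MvPolynomial.pderiv_mul, MvPolynomial.pderiv_X]
      ring

theorem germ_arc (γ : ℝ → ℂ) (hd : Differentiable ℝ γ)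
    (hreg : ∀ s ∈ Set.Ioo (0 : ℝ) 1, deriv γ s ≠ 0) (F : MvPolynomial (Fin 2) ℂ)
    (hF : IsoFree F) (hon : ∀ s ∈ Set.Ioo (0 : ℝ) 1,
      MvPolynomial.eval ![γ s, conj (γ s)] F = 0)
    (P W V : Ω → ℂ)
    (h : ∀ᶠ x in (U : Filter Ω), ‖W x‖ = 1 ∧ ∃ s ∈ Set.Ioo (0 : ℝ) 1, P x = γ s ∧
      V x = deriv γ s / conj (deriv γ s) * conj (W x))
    (hnc : ∀ c : ℂ, gm U (fun x => conj (P x)) ≠ algebraMap ℂ (GK U) c) :
    ∃ G : MvPolynomial (Fin 2) ℂ, Irreducible G ∧ IsoFree G ∧
      ev G (gm U P) (gm U (fun x => conj (P x))) = 0 ∧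
      gm U W * gm U V * ev (MvPolynomial.pderiv 0 G) (gm U P) (gm U (fun x => conj (P x))) =
        -ev (MvPolynomial.pderiv 1 G) (gm U P) (gm U (fun x => conj (P x))) := by
  have hF0 : ev F (gm U P) (gm U (fun x => conj (P x))) = 0 := by
    rw [germA_ev]
    have h1 : gm U (fun x => MvPolynomial.eval ![P x, conj (P x)] F) = gm U (fun _ => 0) := by
      rw [Pool.Agent.H6.Ivrii.gm_eq]
      filter_upwards [h] with x hx
      obtain ⟨-, s, hs, hP, -⟩ := hx
      rw [hP]
      exact hon s hs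
    exact h1
  obtain ⟨G, hirr, hGF, hG0⟩ := exists_irr_factor hF.1 hF0
  have hiso : IsoFree G := hF.of_dvd hGF
  refine ⟨G, hirr, hiso, hG0, ?_⟩
  obtain ⟨m, H, hGH, hFm⟩ := WfDvdMonoid.max_power_factor hF.1 hirr
  have hH0 : ev H (gm U P) (gm U (fun x => conj (P x))) ≠ 0 := by
    intro hH
    obtain ⟨A, B, c, hc, hAB⟩ := elim_one hirr hiso hGH
    have h1 := congrArg (fun T => ev T (gm U P) (gm U (fun x => conj (P x)))) hAB
    simp only [ev, map_add, map_mul] at h1
    unfold ev at hG0 hH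
    rw [hG0, hH, mul_zero, mul_zero, add_zero] at h1
    have h2 : MvPolynomial.aeval ![gm U P, gm U (fun x => conj (P x))]
        (Polynomial.aeval (MvPolynomial.X 1 : MvPolynomial (Fin 2) ℂ) c) =
        Polynomial.aeval (gm U (fun x => conj (P x))) c := by
      rw [← Polynomial.aeval_algHom_apply, MvPolynomial.aeval_X]
      rfl
    rw [h2] at h1
    have halg : IsAlgebraic ℂ (gm U (fun x => conj (P x))) := ⟨c, hc, h1.symm⟩
    have hint : IsIntegral ℂ (gm U (fun x => conj (P x))) := halg.isIntegral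
    have hdeg := IsAlgClosed.degree_eq_one_of_irreducible ℂ (minpoly.irreducible hint)
    obtain ⟨c0, hc0⟩ := minpoly.mem_range_of_degree_eq_one ℂ _ hdeg
    exact hnc c0 hc0.symm
  have hHev : ∀ᶠ x in (U : Filter Ω), MvPolynomial.eval ![P x, conj (P x)] H ≠ 0 := by
    rw [germA_ev] at hH0
    have h1 : ¬ ∀ᶠ x in (U : Filter Ω), MvPolynomial.eval ![P x, conj (P x)] H = 0 := by
      intro h2
      apply hH0
      have h3 : gm U (fun x => MvPolynomial.eval ![P x, conj (P x)] H) = gm U (fun _ => 0) := by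
        rw [Pool.Agent.H6.Ivrii.gm_eq]
        exact h2
      exact h3
    exact Ultrafilter.eventually_not.2 h1
  rw [germA_ev, germA_ev, Pool.Agent.H6.Ivrii.gm_mul, Pool.Agent.H6.Ivrii.gm_mul,
    Pool.Agent.H6.Ivrii.gm_neg, Pool.Agent.H6.Ivrii.gm_eq]
  filter_upwards [h, hHev] with x hx hHx
  obtain ⟨hW, s, hs, hP, hV⟩ := hx
  rw [hP] at hHx ⊢
  have hγ : HasDerivAt γ (deriv γ s) s := (hd s).hasDerivAt
  have hγc : HasDerivAt (fun t => conj (γ t)) (conj (deriv γ s)) s :=
    Complex.conjCLE.toContinuousLinearMap.hasFDerivAt.comp_hasDerivAt s hγ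
  have hcont : ∀ᶠ t in nhds s, MvPolynomial.eval ![γ t, conj (γ t)] H ≠ 0 :=
    (germA_deriv H hγ hγc).continuousAt.eventually_ne hHx
  have hzero : (fun t => MvPolynomial.eval ![γ t, conj (γ t)] G) =ᶠ[nhds s] fun _ => 0 := by
    filter_upwards [hcont, Ioo_mem_nhds hs.1 hs.2] with t ht hts
    have h1 := hon t hts
    rw [hFm, map_mul, map_pow] at h1
    rcases mul_eq_zero.1 h1 with h2 | h2
    · exact eq_zero_of_pow_eq_zero h2
    · exact absurd h2 ht
  have hD1 := germA_deriv G hγ hγc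
  have hD2 : HasDerivAt (fun t => MvPolynomial.eval ![γ t, conj (γ t)] G) 0 s :=
    (hasDerivAt_const s (0 : ℂ)).congr_of_eventuallyEq hzero
  have hD := hD1.unique hD2
  have hr := hreg s hs
  have hrc : conj (deriv γ s) ≠ 0 := by
    rw [Ne, map_eq_zero]
    exact hr
  have hWW : W x * conj (W x) = 1 := by
    rw [Complex.mul_conj, Complex.normSq_eq_norm_sq, hW]
    simp
  rw [hV]
  have e1 : MvPolynomial.eval ![γ s, conj (γ s)] (MvPolynomial.pderiv 1 G) * conj (deriv γ s) =
      -(MvPolynomial.eval ![γ s, conj (γ s)] (MvPolynomial.pderiv 0 G) * deriv γ s) := by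
    linear_combination hD
  have e2 : MvPolynomial.eval ![γ s, conj (γ s)] (MvPolynomial.pderiv 1 G) =
      -(MvPolynomial.eval ![γ s, conj (γ s)] (MvPolynomial.pderiv 0 G) * deriv γ s) /
        conj (deriv γ s) := by
    rw [eq_div_iff hrc]
    exact e1
  rw [e2]
  calc W x * (deriv γ s / conj (deriv γ s) * conj (W x)) *
        MvPolynomial.eval ![γ s, conj (γ s)] (MvPolynomial.pderiv 0 G)
      = (W x * conj (W x)) * (deriv γ s / conj (deriv γ s)) *
        MvPolynomial.eval ![γ s, conj (γ s)] (MvPolynomial.pderiv 0 G) := by ring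
    _ = _ := by
      rw [hWW]
      ring

end Pool.Agent.H6.IvA
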