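import Pool.Agent.H6.IvA.CoreA
import Pool.Agent.H6.IvA.ArcA
import Pool.Agent.H6.Ivrii.Main

set_option autoImplicit false

namespace Pool.Agent.H6.IvA

open MeasureTheory ComplexConjugate
open Pool.Agent.H6.Ivrii (toC toC_add_smul toC_cos_sin)

/-- the arc lies on a real algebraic curve that does not pass through the circular points at infinity -/
def AlgArc (γ : ℝ → ℝ × ℝ) : Prop :=
  ∃ f : MvPolynomial (Fin 2) ℝ, f ≠ 0 ∧
    (MvPolynomial.aeval ![(Polynomial.X : Polynomial ℂ),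
      Polynomial.C Complex.I * Polynomial.X] f).natDegree = f.totalDegree ∧
    ∀ s ∈ Set.Icc (0 : ℝ) 1, MvPolynomial.eval ![(γ s).1, (γ s).2] f = 0

theorem good_of_algArc (γ : ℝ → ℝ × ℝ) (hd : Differentiable ℝ γ)
    (hreg : ∀ s ∈ Set.Icc (0 : ℝ) 1, deriv γ s ≠ 0) (h : AlgArc γ) :
    Good (fun s => toC (γ s)) := by
  obtain ⟨f, hf, hdeg, hon⟩ := h
  obtain ⟨h1, h2⟩ := deriv_toC γ hd
  refine ⟨h1, ?_, toIso f, isoFree_of_real hf hdeg, ?_⟩
  · intro s hs h0
    rw [h2] at h0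
    apply hreg s (Set.Ioo_subset_Icc_self hs)
    have h3 := congrArg Complex.re h0
    have h4 := congrArg Complex.im h0
    exact Prod.ext h3 h4
  · intro s hs
    exact on_toIso f (γ s) (hon s (Set.Ioo_subset_Icc_self hs))

theorem mainA (m : ℕ) (Y : Set (ℝ × ℝ)) (γ : Fin m → ℝ → ℝ × ℝ)
    (hγ : ∀ i, ContDiff ℝ ((⊤ : ℕ∞) : WithTop ℕ∞) (γ i))
    (hreg : ∀ i, ∀ s ∈ Set.Icc (0 : ℝ) 1, deriv (γ i) s ≠ 0)
    (hinj : ∀ i, Set.InjOn (γ i) (Set.Ioo (0 : ℝ) 1))
    (hdisj : ∀ i j, i ≠ j →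
      Disjoint (γ i '' Set.Ioo (0 : ℝ) 1) (γ j '' Set.Ioo (0 : ℝ) 1))
    (J : Set (Fin m)) (hJ : ∀ j ∈ J, AlgArc (γ j)) (i : Fin m) :
    volume {q : ℝ × ℝ | q.1 ∈ Set.Ioo (0 : ℝ) 1 ∧
        ∃ n : ℕ, 0 < n ∧ ∃ P V : ℕ → ℝ × ℝ,
          P 0 = γ i q.1 ∧ V 0 = (Real.cos q.2, Real.sin q.2) ∧
          P n = P 0 ∧ V n = V 0 ∧
          ∀ k < n,
            (∃ t : ℝ, 0 < t ∧ P (k + 1) = P k + t • V k ∧
              ∀ τ ∈ Set.Ioo (0 : ℝ) t, P k + τ • V k ∈ interior Y) ∧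
            (∃ j ∈ J, ∃ s ∈ Set.Ioo (0 : ℝ) 1, P (k + 1) = γ j s ∧
              (V k).1 * (-(deriv (γ j) s).2) + (V k).2 * (deriv (γ j) s).1 ≠ 0 ∧
              V (k + 1) = V k -
                (2 * ((V k).1 * (-(deriv (γ j) s).2) + (V k).2 * (deriv (γ j) s).1) /
                  ((deriv (γ j) s).1 ^ 2 + (deriv (γ j) s).2 ^ 2)) •
                  (-(deriv (γ j) s).2, (deriv (γ j) s).1)) ∧
            (∃ ε : ℝ, 0 < ε ∧
              ∀ τ ∈ Set.Ioo (0 : ℝ) ε, P (k + 1) + τ • V (k + 1) ∈ interior Y)} = 0 := by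
  classical
  have hdiff : ∀ j, Differentiable ℝ (γ j) := fun j => (hγ j).differentiable (by simp)
  by_cases hi : i ∈ J
  swap
  · -- no closed orbit starts on the arc `i`
    convert measure_empty (μ := (volume : Measure (ℝ × ℝ)))
    rw [Set.eq_empty_iff_forall_notMem]
    rintro q ⟨hq, n, hn, P, V, hP0, -, hPn, -, hall⟩
    obtain ⟨-, ⟨j, hj, s, hs, hPs, -⟩, -⟩ := hall (n - 1) (by omega)
    rw [Nat.sub_add_cancel hn] at hPs
    have hij : i ≠ j := fun h => hi (h ▸ hj)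
    exact Set.disjoint_left.mp (hdisj i j hij) ⟨q.1, hq, rfl⟩ ⟨s, hs, by rw [← hPs, hPn, hP0]⟩
  · have hgood : ∀ j ∈ J, Good (fun s => toC (γ j s)) := fun j hj =>
      good_of_algArc (γ j) (hdiff j) (hreg j) (hJ j hj)
    have hcont : Continuous (fun s => toC (γ i s)) := (hgood i hi).1.continuous
    have hinjC : Set.InjOn (fun s => toC (γ i s)) (Set.Ioo (0 : ℝ) 1) := by
      intro a ha b hb hab
      apply hinj i ha hb
      have h1 := congrArg Complex.re hab
      have h2 := congrArg Complex.im hab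
      exact Prod.ext h1 h2
    have hcore : ∀ w : List (Fin m), volume {x : ℝ × ℝ | (∀ j ∈ w, j ∈ J) ∧
        x.1 ∈ Set.Ioo (0 : ℝ) 1 ∧
        ∃ T : ℝ, 0 < T ∧ AO (w.map fun j s => toC (γ j s)) (toC (γ i x.1))
          (Complex.exp (x.2 * Complex.I)) T
          (toC (γ i x.1)) (Complex.exp (x.2 * Complex.I))} = 0 := by
      intro w
      by_cases hw : ∀ j ∈ w, j ∈ J
      · refine measure_mono_null ?_ (coreA (fun s => toC (γ i s)) hcont hinjC (hgood i hi)
          (w.map fun j s => toC (γ j s)) (by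
            intro g hg
            obtain ⟨j, hj, rfl⟩ := List.mem_map.mp hg
            exact hgood j (hw j hj)))
        intro x hx
        exact hx.2
      · convert measure_empty (μ := (volume : Measure (ℝ × ℝ)))
        rw [Set.eq_empty_iff_forall_notMem]
        intro x hx
        exact hw hx.1
    refine measure_mono_null ?_ (measure_iUnion_null hcore)
    rintro q ⟨hq, n, hn, P, V, hP0, hV0, hPn, hVn, hall⟩
    have hind : ∀ k ≤ n, ∃ (w : List (Fin m)) (T : ℝ), (∀ j ∈ w, j ∈ J) ∧ (0 < k → 0 < T) ∧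
        0 ≤ T ∧ AO (w.map fun j s => toC (γ j s)) (toC (P 0)) (toC (V 0)) T (toC (P k))
          (toC (V k)) := by
      intro k
      induction k with
      | zero =>
        intro _
        exact ⟨[], 0, by simp, fun h => absurd h (lt_irrefl _), le_rfl, rfl, rfl, rfl⟩
      | succ k ih =>
        intro hk
        obtain ⟨w, T, hw, -, hT0, hPO⟩ := ih (by omega)
        obtain ⟨⟨t, ht, hPt, -⟩, ⟨j, hj, s, hs, hPs, -, hVs⟩, -⟩ := hall k (by omega)
        refine ⟨j :: w, T + t, ?_, fun _ => by linarith, by linarith, T, t, toC (P k),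
          toC (V k), hPO, ?_, rfl, s, hs, ?_, ?_⟩
        · intro j' hj'
          rcases List.mem_cons.mp hj' with h | h
          · rw [h]; exact hj
          · exact hw j' h
        · rw [hPt, toC_add_smul]
        · rw [hPs]
        · rw [hVs, (deriv_toC (γ j) (hdiff j)).2 s]
          exact refl_toC (deriv (γ j) s) (V k) (hreg j s (Set.Ioo_subset_Icc_self hs))
    obtain ⟨w, T, hw, hT, -, hPO⟩ := hind n le_rfl
    rw [hPn, hVn, hP0, hV0, toC_cos_sin] at hPO
    exact Set.mem_iUnion.mpr ⟨w, hw, hq, T, hT hn, hPO⟩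

end Pool.Agent.H6.IvA
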